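import Pool.Agent.Helper55.TM.Basic

/-!
The bridge to the frozen statement.
-/

set_option autoImplicit false

open scoped ContDiff

namespace TM

lemma bg_Ch_rec (n : ℤ) (y : ℝ) : Ch (n + 1) y = 2 * y * Ch n y - Ch (n - 1) y := by
  unfold Ch
  have h := Polynomial.Chebyshev.U_add_two ℝ (n - 1)
  have e1 : n - 1 + 2 = n + 1 := by ring
  have e2 : n - 1 + 1 = n := by ring
  rw [e1, e2] at h
  rw [h]
  simp

lemma bg_U_iter (k : ℕ) (p : Pt) :
    U^[k] p = (p.1 * Ch k p.2.1 - p.2.2 * Ch (k - 1) p.2.1, p.2.1,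
      p.1 * Ch (k - 1) p.2.1 - p.2.2 * Ch (k - 2) p.2.1) := by
  induction k with
  | zero =>
    have h0 : Ch 0 p.2.1 = 1 := by unfold Ch; simp
    have h1 : Ch (-1) p.2.1 = 0 := by unfold Ch; simp
    have h2 : Ch (-2) p.2.1 = -1 := by unfold Ch; simp
    obtain ⟨x, y, z⟩ := p
    simp only [Nat.cast_zero, zero_sub, Function.iterate_zero, id_eq]
    simp only at h0 h1 h2
    rw [h0, h1, h2]
    simp
  | succ k ih =>
    rw [Function.iterate_succ_apply', ih]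
    have h1 := bg_Ch_rec k p.2.1
    have h2 := bg_Ch_rec ((k : ℤ) - 1) p.2.1
    have e1 : (k : ℤ) - 1 + 1 = k := by ring
    have e2 : (k : ℤ) - 1 - 1 = (k : ℤ) - 2 := by ring
    rw [e1, e2] at h2
    have e3 : ((k + 1 : ℕ) : ℤ) = (k : ℤ) + 1 := by push_cast; ring
    have e4 : (k : ℤ) + 1 - 1 = k := by ring
    have e5 : (k : ℤ) + 1 - 2 = (k : ℤ) - 1 := by ring
    rw [e3, e4, e5, h1]
    unfold U
    simp only [Prod.mk.injEq, true_and, and_true]
    linear_combination (p.2.2) * h2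

theorem T_cheb (k : ℕ) (p : Pt) :
    T k p = (p.1 * Ch k p.2.1 - p.2.2 * Ch (k - 1) p.2.1,
      p.1 * Ch (k - 1) p.2.1 - p.2.2 * Ch (k - 2) p.2.1, p.2.1) := by
  unfold T
  rw [bg_U_iter]
  rfl

/-- The digits of an irrational number. -/
noncomputable def digit (α : ℝ) (n : ℕ) : ℕ := ⌊((fun x : ℝ => Int.fract x⁻¹)^[n] α)⁻¹⌋₊

lemma bg_iter {α : ℝ} (h : Irrational α) (h0 : 0 < α) (h1 : α < 1) (n : ℕ) :
    Irrational ((fun x : ℝ => Int.fract x⁻¹)^[n] α) ∧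
      0 < (fun x : ℝ => Int.fract x⁻¹)^[n] α ∧ (fun x : ℝ => Int.fract x⁻¹)^[n] α < 1 := by
  induction n with
  | zero => exact ⟨h, h0, h1⟩
  | succ n ih =>
    rw [Function.iterate_succ_apply']
    obtain ⟨i1, -, -⟩ := ih
    set x := (fun x : ℝ => Int.fract x⁻¹)^[n] α with hx
    have i2 : Irrational (Int.fract x⁻¹) := by
      unfold Int.fract
      exact i1.inv.sub_intCast _
    refine ⟨i2, ?_, Int.fract_lt_one _⟩
    exact lt_of_le_of_ne (Int.fract_nonneg _) (fun hh => by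
      rw [← hh] at i2
      exact i2 ⟨0, by simp⟩)

theorem digit_pos {α : ℝ} (h : Irrational α) (h0 : 0 < α) (h1 : α < 1) (n : ℕ) :
    1 ≤ digit α n := by
  obtain ⟨-, i2, i3⟩ := bg_iter h h0 h1 n
  unfold digit
  rw [Nat.one_le_floor_iff]
  exact (one_le_inv₀ i2).2 i3.le

theorem W_frozen {c : ℝ} (hc : 0 < c) {α : ℝ} (h : Irrational α) (h0 : 0 < α) (h1 : α < 1) :
    W (c / 2) (digit α) = {p : ℝ × ℝ × ℝ |
            p.1 ^ 2 + p.2.1 ^ 2 + p.2.2 ^ 2 - 2 * p.1 * p.2.1 * p.2.2 = 1 + c ^ 2 / 4 ∧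
            ∀ a : ℕ → ℤ, ∀ q : ℕ → ℝ × ℝ × ℝ,
              (∀ n, a n = ((⌊((fun x : ℝ => Int.fract x⁻¹)^[n] α)⁻¹⌋₊ : ℕ) : ℤ)) →
              q 0 = p →
              (∀ n, q (n + 1) =
                ((q n).1 * (Polynomial.Chebyshev.U ℝ (a n)).eval (q n).2.1
                    - (q n).2.2 * (Polynomial.Chebyshev.U ℝ (a n - 1)).eval (q n).2.1,
                  (q n).1 * (Polynomial.Chebyshev.U ℝ (a n - 1)).eval (q n).2.1
                    - (q n).2.2 * (Polynomial.Chebyshev.U ℝ (a n - 2)).eval (q n).2.1,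
                  (q n).2.1)) →
              ∃ C : ℝ, ∀ n, ‖q n‖ ≤ C} := by
  have he : (c / 2) ^ 2 = c ^ 2 / 4 := by ring
  ext p
  have hS : p ∈ Surf (c / 2) ↔
      p.1 ^ 2 + p.2.1 ^ 2 + p.2.2 ^ 2 - 2 * p.1 * p.2.1 * p.2.2 = 1 + c ^ 2 / 4 := by
    unfold Surf FV
    rw [← he]
    exact Iff.rfl
  constructor
  · rintro ⟨hp1, C, hC⟩
    refine ⟨hS.1 hp1, ?_⟩
    intro a q ha hq0 hq
    have hqo : ∀ n, q n = orb (digit α) n p := by
      intro n
      induction n with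
      | zero => exact hq0
      | succ n ih =>
        rw [hq n, ha n]
        show _ = T (digit α n) (orb (digit α) n p)
        rw [T_cheb, ← ih]
        rfl
    exact ⟨C, fun n => by rw [hqo n]; exact hC n⟩
  · rintro ⟨hp1, hp2⟩
    refine ⟨hS.2 hp1, ?_⟩
    refine hp2 (fun n => ((digit α n : ℕ) : ℤ)) (fun n => orb (digit α) n p) (fun n => rfl) rfl ?_
    intro n
    show T (digit α n) (orb (digit α) n p) = _
    rw [T_cheb]
    rfl

end TM
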