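import Pool.Agent.Helper55.TM.Basic

/-!
From critical values to real roots.
-/

set_option autoImplicit false

open scoped ContDiff Topology

namespace TM

/-- `Q - v X^m`. -/
noncomputable def rcP (Q : Polynomial ℂ) (m : ℕ) (v : ℝ) : Polynomial ℂ :=
  Q - Polynomial.C (v : ℂ) * Polynomial.X ^ m

lemma rcP_eval (Q : Polynomial ℂ) (m : ℕ) (v : ℝ) (z : ℂ) :
    (rcP Q m v).eval z = Q.eval z - v * z ^ m := by
  simp [rcP]

lemma rcP_aux {Q : Polynomial ℂ} {m : ℕ} (hQ : Q.natDegree = 2 * m) (hm : 1 ≤ m) (v : ℝ) :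
    (Polynomial.C (v : ℂ) * Polynomial.X ^ m).natDegree < Q.natDegree := by
  have := Polynomial.natDegree_C_mul_X_pow_le (v : ℂ) m
  omega

lemma rcP_natDegree {Q : Polynomial ℂ} {m : ℕ} (hQ : Q.natDegree = 2 * m) (hm : 1 ≤ m) (v : ℝ) :
    (rcP Q m v).natDegree = 2 * m := by
  unfold rcP
  rw [Polynomial.natDegree_sub_eq_left_of_natDegree_lt (rcP_aux hQ hm v), hQ]

lemma rcP_lc {Q : Polynomial ℂ} {m : ℕ} (hQ : Q.natDegree = 2 * m) (hm : 1 ≤ m) (v : ℝ) :
    (rcP Q m v).leadingCoeff = Q.leadingCoeff := by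
  rw [Polynomial.leadingCoeff, rcP_natDegree hQ hm v, Polynomial.leadingCoeff, hQ]
  unfold rcP
  rw [Polynomial.coeff_sub, Polynomial.coeff_C_mul, Polynomial.coeff_X_pow]
  rw [if_neg (by omega)]
  simp

lemma rcP_ne {Q : Polynomial ℂ} {m : ℕ} (hQ : Q.natDegree = 2 * m) (hm : 1 ≤ m) (v : ℝ) :
    rcP Q m v ≠ 0 := by
  intro h
  have := rcP_natDegree hQ hm v
  rw [h] at this
  simp at this
  omega

lemma rcP_card {Q : Polynomial ℂ} {m : ℕ} (hQ : Q.natDegree = 2 * m) (hm : 1 ≤ m) (v : ℝ) :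
    Multiset.card (rcP Q m v).roots = 2 * m := by
  rw [← rcP_natDegree hQ hm v]
  exact Polynomial.splits_iff_card_roots.1 (IsAlgClosed.splits _)

lemma rc_prod (s : Multiset ℂ) (z : ℂ) (r : ℝ) (hr : 0 ≤ r) (h : ∀ a ∈ s, r ≤ ‖z - a‖) :
    r ^ (Multiset.card s) ≤ ‖(s.map (fun a => z - a)).prod‖ := by
  induction s using Multiset.induction with
  | empty => simp
  | cons a s ih =>
    rw [Multiset.map_cons, Multiset.prod_cons, Multiset.card_cons, pow_succ, norm_mul, mul_comm]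
    exact mul_le_mul (h a (by simp)) (ih fun b hb => h b (by simp [hb])) (by positivity)
      (norm_nonneg _)

lemma rc_lower {Q : Polynomial ℂ} {m : ℕ} (hQ : Q.natDegree = 2 * m) (hm : 1 ≤ m) {v : ℝ}
    (hall : ∀ z : ℂ, Q.eval z = v * z ^ m → ‖z‖ = 1) (z : ℂ) :
    ‖Q.leadingCoeff‖ * |‖z‖ - 1| ^ (2 * m) ≤ ‖Q.eval z - v * z ^ m‖ := by
  rw [← rcP_eval, Polynomial.Splits.eval_eq_prod_roots (IsAlgClosed.splits _), rcP_lc hQ hm,
    norm_mul]
  refine mul_le_mul_of_nonneg_left ?_ (norm_nonneg _)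
  rw [← rcP_card hQ hm v]
  refine rc_prod _ z _ (abs_nonneg _) fun a ha => ?_
  have h1 : ‖a‖ = 1 := by
    apply hall
    have h2 := (Polynomial.mem_roots (rcP_ne hQ hm v)).1 ha
    rw [Polynomial.IsRoot.def, rcP_eval] at h2
    exact sub_eq_zero.1 h2
  rw [← h1]
  exact abs_norm_sub_norm_le z a

lemma rc_contDiff {m : ℕ} {f : ℝ → ℝ} {Q : Polynomial ℂ}
    (hf : ∀ τ : ℝ, (f τ : ℂ) * Complex.exp (Complex.I * m * τ) =
      Q.eval (Complex.exp (Complex.I * τ))) : ContDiff ℝ 1 f := by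
  have h1 : f = fun τ : ℝ => (Q.eval (Complex.exp (Complex.I * τ)) *
      Complex.exp (-(Complex.I * m * τ))).re := by
    funext τ
    rw [← hf τ, mul_assoc, ← Complex.exp_add, add_neg_cancel, Complex.exp_zero, mul_one,
      Complex.ofReal_re]
  rw [h1]
  have h2 : ContDiff ℝ 1 (fun τ : ℝ => Complex.exp (Complex.I * (τ : ℂ))) :=
    (contDiff_const.mul Complex.ofRealCLM.contDiff).cexp
  have h3 : ContDiff ℝ 1 (fun τ : ℝ => Complex.exp (-(Complex.I * m * (τ : ℂ)))) :=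
    (contDiff_const.mul Complex.ofRealCLM.contDiff).neg.cexp
  have h4 : ContDiff ℝ 1 (fun z : ℂ => Q.eval z) := by
    have h5 : ContDiff ℂ 1 (fun z : ℂ => Polynomial.aeval z Q) := Polynomial.contDiff_aeval Q 1
    have h6 : (fun z : ℂ => Polynomial.aeval z Q) = fun z : ℂ => Q.eval z := by
      funext z
      simp
    rw [h6] at h5
    exact h5.restrict_scalars ℝ
  exact Complex.reCLM.contDiff.comp ((h4.comp h2).mul h3)

lemma rc_root {m : ℕ} {f : ℝ → ℝ} {Q : Polynomial ℂ}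
    (hf : ∀ τ : ℝ, (f τ : ℂ) * Complex.exp (Complex.I * m * τ) =
      Q.eval (Complex.exp (Complex.I * τ))) {v : ℝ} {z : ℂ} (hz : Q.eval z = v * z ^ m)
    (h1 : ‖z‖ = 1) : ∃ τ : ℝ, Complex.exp (Complex.I * τ) = z ∧ f τ = v := by
  obtain ⟨τ, hτ⟩ := (Complex.norm_eq_one_iff z).1 h1
  refine ⟨τ, by rw [mul_comm]; exact hτ, ?_⟩
  have h2 : Complex.exp (Complex.I * τ) = z := by rw [mul_comm]; exact hτ
  have h3 : Complex.exp (Complex.I * m * τ) = z ^ m := by
    rw [← h2, ← Complex.exp_nat_mul]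
    congr 1
    ring
  have h4 := hf τ
  rw [h2, h3, hz] at h4
  have hz0 : z ^ m ≠ 0 := by
    apply pow_ne_zero
    intro h0
    rw [h0] at h1
    simp at h1
  exact_mod_cast mul_right_cancel₀ hz0 h4

lemma rc_root' {m : ℕ} {f : ℝ → ℝ} {Q : Polynomial ℂ}
    (hf : ∀ τ : ℝ, (f τ : ℂ) * Complex.exp (Complex.I * m * τ) =
      Q.eval (Complex.exp (Complex.I * τ))) (τ : ℝ) :
    Q.eval (Complex.exp (Complex.I * τ)) = (f τ : ℂ) * Complex.exp (Complex.I * τ) ^ m := by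
  rw [← hf τ, ← Complex.exp_nat_mul]
  congr 2
  ring

lemma rc_simple {m : ℕ} {f : ℝ → ℝ} {Q : Polynomial ℂ}
    (hf : ∀ τ : ℝ, (f τ : ℂ) * Complex.exp (Complex.I * m * τ) =
      Q.eval (Complex.exp (Complex.I * τ))) (hm : 1 ≤ m) (τ : ℝ)
    (hd : (Polynomial.derivative (rcP Q m (f τ))).eval (Complex.exp (Complex.I * τ)) = 0) :
    deriv f τ = 0 := by
  have hfd : HasDerivAt f (deriv f τ) τ :=
    ((rc_contDiff hf).differentiable (by norm_num) τ).hasDerivAt
  set ζ : ℂ := Complex.exp (Complex.I * τ) with hζ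
  have hζ0 : ζ ≠ 0 := Complex.exp_ne_zero _
  have he : ∀ a : ℂ, HasDerivAt (fun s : ℝ => Complex.exp (a * s))
      (Complex.exp (a * τ) * a) τ := by
    intro a
    have h1 : HasDerivAt (fun s : ℝ => a * (s : ℂ)) (a * 1) τ :=
      (Complex.ofRealCLM.hasDerivAt (x := τ)).const_mul a
    rw [mul_one] at h1
    exact h1.cexp
  have h1 : HasDerivAt (fun s : ℝ => (f s : ℂ) * Complex.exp (Complex.I * m * s))
      (((deriv f τ : ℝ) : ℂ) * Complex.exp (Complex.I * m * τ) +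
        (f τ : ℂ) * (Complex.exp (Complex.I * m * τ) * (Complex.I * m))) τ :=
    hfd.ofReal_comp.mul (he (Complex.I * m))
  have h2 : HasDerivAt (fun s : ℝ => Q.eval (Complex.exp (Complex.I * s)))
      ((Polynomial.derivative Q).eval ζ * (ζ * Complex.I)) τ := by
    have h3 : HasDerivAt (fun z : ℂ => Q.eval z) ((Polynomial.derivative Q).eval ζ) ζ :=
      Q.hasDerivAt ζ
    exact h3.comp τ (he Complex.I)
  have h4 : (fun s : ℝ => (f s : ℂ) * Complex.exp (Complex.I * m * s)) =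
      fun s : ℝ => Q.eval (Complex.exp (Complex.I * s)) := by
    funext s
    exact hf s
  rw [h4] at h1
  have h5 := h1.unique h2
  have h6 : Complex.exp (Complex.I * m * τ) = ζ ^ m := by
    rw [hζ, ← Complex.exp_nat_mul]
    congr 1
    ring
  have h7 : (Polynomial.derivative Q).eval ζ = (f τ : ℂ) * (m * ζ ^ (m - 1)) := by
    unfold rcP at hd
    rw [Polynomial.derivative_sub, Polynomial.derivative_C_mul, Polynomial.derivative_X_pow,
      Polynomial.eval_sub, Polynomial.eval_mul, Polynomial.eval_C] at hd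
    have h8 := sub_eq_zero.1 hd
    rw [h8]
    simp
  have h9 : ζ ^ (m - 1) * ζ = ζ ^ m := by
    rw [← pow_succ]
    congr 1
    omega
  rw [h6, h7] at h5
  have h10 : ((deriv f τ : ℝ) : ℂ) * ζ ^ m = 0 := by
    have : (f τ : ℂ) * (m * ζ ^ (m - 1)) * (ζ * Complex.I) =
        (f τ : ℂ) * (ζ ^ m * (Complex.I * m)) := by
      rw [← h9]
      ring
    rw [this] at h5
    linear_combination h5
  rcases mul_eq_zero.1 h10 with h | h
  · exact_mod_cast h
  · exact absurd h (pow_ne_zero _ hζ0)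

lemma rc_open {c : ℝ} {m : ℕ} {f : ℝ → ℝ} {Q : Polynomial ℂ} (hQ : Q.natDegree = 2 * m)
    (hm : 1 ≤ m)
    (hf : ∀ τ : ℝ, (f τ : ℂ) * Complex.exp (Complex.I * m * τ) =
      Q.eval (Complex.exp (Complex.I * τ)))
    (hcr : ∀ τ, |f τ| < c → deriv f τ ≠ 0) {v : ℝ} (hv : |v| < c)
    (hall : ∀ z : ℂ, Q.eval z = v * z ^ m → ‖z‖ = 1) :
    ∀ᶠ v' : ℝ in 𝓝 v, ∀ z : ℂ, Q.eval z = v' * z ^ m → ‖z‖ = 1 := by
  classical
  set R : Finset ℂ := (rcP Q m v).roots.toFinset with hR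
  have hmem : ∀ (w : ℝ) (z : ℂ), z ∈ (rcP Q m w).roots ↔ Q.eval z = w * z ^ m := by
    intro w z
    rw [Polynomial.mem_roots (rcP_ne hQ hm w), Polynomial.IsRoot.def, rcP_eval, sub_eq_zero]
  have hroot : ∀ ζ ∈ R, ∃ τ : ℝ, Complex.exp (Complex.I * τ) = ζ ∧ f τ = v := by
    intro ζ hζ
    rw [hR, Multiset.mem_toFinset, hmem] at hζ
    exact rc_root hf hζ (hall ζ hζ)
  have hnodup : (rcP Q m v).roots.Nodup := by
    rw [Multiset.nodup_iff_count_le_one]
    intro ζ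
    rw [Polynomial.count_roots]
    by_contra hcon
    push Not at hcon
    obtain ⟨h1, h2⟩ := (Polynomial.one_lt_rootMultiplicity_iff_isRoot (rcP_ne hQ hm v)).1 hcon
    obtain ⟨τ, h3, h4⟩ := hroot ζ (by
      rw [hR, Multiset.mem_toFinset]
      exact (Polynomial.mem_roots (rcP_ne hQ hm v)).2 h1)
    rw [Polynomial.IsRoot.def] at h2
    subst h4
    rw [← h3] at h2
    exact hcr τ hv (rc_simple hf hm τ h2)
  have hcard : R.card = 2 * m := by
    rw [hR, Multiset.toFinset_card_of_nodup hnodup, rcP_card hQ hm v]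
  obtain ⟨W, hW, hWd⟩ := (R.finite_toSet).t2_separation
  have hloc : ∀ ζ ∈ R, ∀ᶠ v' : ℝ in 𝓝 v, ∃ x : ℝ, Complex.exp (Complex.I * x) ∈ W ζ ∧
      f x = v' := by
    intro ζ hζ
    obtain ⟨τ, h3, h4⟩ := hroot ζ hζ
    have h5 : HasStrictDerivAt f (deriv f τ) τ :=
      (rc_contDiff hf).contDiffAt.hasStrictDerivAt (by norm_num)
    have h6 := h5.map_nhds_eq (hcr τ (by rw [h4]; exact hv))
    have h7 : {x : ℝ | Complex.exp (Complex.I * x) ∈ W ζ} ∈ 𝓝 τ := by
      have h8 : Continuous fun x : ℝ => Complex.exp (Complex.I * x) := by fun_prop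
      apply h8.continuousAt.preimage_mem_nhds
      rw [h3]
      exact (hW ζ).2.mem_nhds (hW ζ).1
    have h9 := Filter.image_mem_map (m := f) h7
    rw [h6, h4] at h9
    filter_upwards [h9] with v' hv'
    obtain ⟨x, hx1, hx2⟩ := hv'
    exact ⟨x, hx1, hx2⟩
  filter_upwards [(Filter.eventually_all_finset R).2 hloc] with v' hv' z hz
  choose x hx1 hx2 using hv'
  set Y : Finset ℂ := R.attach.image (fun ζ => Complex.exp (Complex.I * x ζ.1 ζ.2)) with hY
  have hYc : Y.card = 2 * m := by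
    rw [hY, Finset.card_image_of_injOn, Finset.card_attach, hcard]
    intro a _ b _ hab
    by_contra hne
    have hne' : a.1 ≠ b.1 := fun h => hne (Subtype.ext h)
    have h1 := hWd (Finset.mem_coe.2 a.2) (Finset.mem_coe.2 b.2) hne'
    have h2 := hx1 a.1 a.2
    have h3 := hx1 b.1 b.2
    have h4 : Complex.exp (Complex.I * x a.1 a.2) = Complex.exp (Complex.I * x b.1 b.2) := hab
    rw [← h4] at h3
    exact Set.disjoint_left.1 h1 h2 h3
  have hYs : Y ⊆ (rcP Q m v').roots.toFinset := by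
    intro y hy
    rw [hY, Finset.mem_image] at hy
    obtain ⟨a, -, rfl⟩ := hy
    rw [Multiset.mem_toFinset, hmem, rc_root' hf, hx2 a.1 a.2]
  have hle : (rcP Q m v').roots.toFinset.card ≤ Y.card := by
    rw [hYc]
    refine (Multiset.toFinset_card_le _).trans ?_
    rw [rcP_card hQ hm v']
  have heq := Finset.eq_of_subset_of_card_le hYs hle
  have hz' : z ∈ Y := by
    rw [heq, Multiset.mem_toFinset, hmem]
    exact hz
  rw [hY, Finset.mem_image] at hz'
  obtain ⟨a, -, rfl⟩ := hz'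
  rw [mul_comm, Complex.norm_exp_ofReal_mul_I]

theorem RT_of_crit {c c0 : ℝ} (hc0 : 0 < c0) {m : ℕ} (hm : 1 ≤ m) {f : ℝ → ℝ}
    (h : RT c0 m f) (hcr : ∀ τ, |f τ| < c → deriv f τ ≠ 0) : RT c m f := by
  obtain ⟨Q, hQ, hQ0, hf, hv0⟩ := h
  refine ⟨Q, hQ, hQ0, hf, ?_⟩
  intro v hv
  set S : Set ℝ := {t : ℝ | ∀ z : ℂ, ‖Q.leadingCoeff‖ * |‖z‖ - 1| ^ (2 * m) ≤
    ‖Q.eval z - ((t * v : ℝ) : ℂ) * z ^ m‖} with hS
  have hlc : Q.leadingCoeff ≠ 0 := by
    intro h0
    rw [Polynomial.leadingCoeff_eq_zero] at h0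
    rw [h0] at hQ0
    simp at hQ0
  have hSiff : ∀ t : ℝ, t ∈ S ↔ ∀ z : ℂ, Q.eval z = ((t * v : ℝ) : ℂ) * z ^ m → ‖z‖ = 1 := by
    intro t
    constructor
    · intro ht z hz
      have h1 := ht z
      rw [hz, sub_self, norm_zero] at h1
      by_contra hne
      have h2 : 0 < |‖z‖ - 1| := abs_pos.2 (sub_ne_zero.2 hne)
      have h3 : 0 < ‖Q.leadingCoeff‖ := norm_pos_iff.2 hlc
      have h4 : 0 < ‖Q.leadingCoeff‖ * |‖z‖ - 1| ^ (2 * m) := by positivity
      linarith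
    · intro ht z
      exact rc_lower hQ hm ht z
  have hSc : IsClosed S := by
    rw [hS, Set.ofPred_forall]
    refine isClosed_iInter fun z => ?_
    refine isClosed_le continuous_const ?_
    fun_prop
  have h01 : Set.Icc (0 : ℝ) 1 ⊆ S := by
    refine IsClosed.Icc_subset_of_forall_mem_nhdsWithin (hSc.inter isClosed_Icc) ?_ ?_
    · rw [hSiff]
      intro z hz
      exact hv0 0 (by rw [abs_zero]; exact hc0) z (by simpa using hz)
    · intro t ht
      have ht1 : |t * v| < c := by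
        rw [abs_mul, abs_of_nonneg ht.2.1]
        have := abs_nonneg v
        nlinarith [ht.2.2, ht.2.1]
      have h1 := rc_open hQ hm hf hcr ht1 ((hSiff t).1 ht.1)
      have h2 : Filter.Tendsto (fun s : ℝ => s * v) (𝓝 t) (𝓝 (t * v)) :=
        (continuous_id.mul continuous_const).tendsto t
      have h3 := h2.eventually h1
      apply mem_nhdsWithin_of_mem_nhds
      filter_upwards [h3] with s hs
      exact (hSiff s).2 hs
  have h1 := (hSiff 1).1 (h01 ⟨zero_le_one, le_refl 1⟩)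
  rw [one_mul] at h1
  exact h1

end TM
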