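import Pool.Agent.Helper85.BP.Stubs

set_option autoImplicit false

open MeasureTheory Complex FourierTransform Filter Topology
open scoped ENNReal NNReal ComplexConjugate

noncomputable section

namespace Helper85.BP.P

open Helper72.BA Helper85.BP

lemma ter_nice_zero : Nice (fun _ => (0 : ℂ)) :=
  ⟨measurable_const, integrable_zero _ _ _, 0, fun _ => by simp⟩

lemma ter_nice_sum (x : ℕ → ℂ → ℂ) (M : ℕ) (hx : ∀ l < M, Nice (x l)) (l : ℕ) (hl : l ≤ M) :
    Nice (fun z => ∑ i ∈ Finset.range l, x i z) := by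
  induction l with
  | zero => simpa using ter_nice_zero
  | succ l ih =>
    have h1 := ih (by omega)
    have h2 := hx l (by omega)
    obtain ⟨C1, hC1⟩ := h1.bdd
    obtain ⟨C2, hC2⟩ := h2.bdd
    simp only [Finset.sum_range_succ]
    exact ⟨h1.meas.add h2.meas, h1.int.add h2.int, C1 + C2, fun z =>
      (norm_add_le _ _).trans (add_le_add (hC1 z) (hC2 z))⟩

/-- products `‖a‖^p ‖x‖^q` with `p ≥ 0`, `q ≥ 1` are integrable -/
lemma ter_int (a x : ℂ → ℂ) (ha : Nice a) (hx : Nice x) (p q : ℝ) (hp : 0 ≤ p) (hq : 1 ≤ q) :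
    Integrable (fun z => ‖a z‖ ^ p * ‖x z‖ ^ q) := by
  obtain ⟨C1, hC1⟩ := ha.bdd
  obtain ⟨C2, hC2⟩ := hx.bdd
  have hC1' : 0 ≤ C1 := (norm_nonneg _).trans (hC1 0)
  have hC2' : 0 ≤ C2 := (norm_nonneg _).trans (hC2 0)
  refine (hx.int.norm.const_mul (C1 ^ p * C2 ^ (q - 1))).mono'
    ((ha.meas.norm.pow_const p).mul (hx.meas.norm.pow_const q)).aestronglyMeasurable
    (Filter.Eventually.of_forall fun z => ?_)
  rw [Real.norm_of_nonneg (by positivity)]
  have hxq : ‖x z‖ ^ q ≤ C2 ^ (q - 1) * ‖x z‖ := by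
    rcases (norm_nonneg (x z)).eq_or_lt with h0 | h0
    · rw [← h0, Real.zero_rpow (by linarith), mul_zero]
    · have h1 : ‖x z‖ ^ q = ‖x z‖ ^ (q - 1) * ‖x z‖ := by
        have h2 : ‖x z‖ ^ q = ‖x z‖ ^ ((q - 1) + 1) := by congr 1; ring
        rw [h2, Real.rpow_add h0, Real.rpow_one]
      rw [h1]
      exact mul_le_mul_of_nonneg_right
        (Real.rpow_le_rpow (norm_nonneg _) (hC2 z) (by linarith)) (norm_nonneg _)
  calc ‖a z‖ ^ p * ‖x z‖ ^ q ≤ C1 ^ p * (C2 ^ (q - 1) * ‖x z‖) :=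
        mul_le_mul (Real.rpow_le_rpow (norm_nonneg _) (hC1 z) hp) hxq (by positivity)
          (by positivity)
    _ = C1 ^ p * C2 ^ (q - 1) * ‖x z‖ := by ring

lemma ter_int' (x : ℂ → ℂ) (hx : Nice x) (q : ℝ) (hq : 1 ≤ q) :
    Integrable (fun z => ‖x z‖ ^ q) := by
  have := ter_int x x hx hx 0 q le_rfl hq
  simpa using this

lemma ter_nrp (x : ℂ → ℂ) (hx : Nice x) (q : ℝ) (hq : 1 ≤ q) :
    nrp q x = ENNReal.ofReal (∫ z, ‖x z‖ ^ q) := by
  rw [ofReal_integral_eq_lintegral_ofReal (ter_int' x hx q hq)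
    (Filter.Eventually.of_forall fun z => by positivity)]
  unfold nrp
  refine lintegral_congr fun z => ?_
  rw [← ENNReal.ofReal_rpow_of_nonneg (norm_nonneg _) (by linarith), ofReal_norm]

lemma ter_mix (a x : ℂ → ℂ) (ha : Nice a) (hx : Nice x) (p : ℝ) (hp : 0 ≤ p) :
    ∫⁻ z, ‖a z‖ₑ ^ p * ‖x z‖ₑ ^ 2 = ENNReal.ofReal (∫ z, ‖a z‖ ^ p * ‖x z‖ ^ 2) := by
  have hint : Integrable (fun z => ‖a z‖ ^ p * ‖x z‖ ^ 2) := by
    have := ter_int a x ha hx p 2 hp (by norm_num)
    simpa using this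
  rw [ofReal_integral_eq_lintegral_ofReal hint
    (Filter.Eventually.of_forall fun z => by positivity)]
  refine lintegral_congr fun z => ?_
  rw [ENNReal.ofReal_mul (by positivity), ← ENNReal.ofReal_rpow_of_nonneg (norm_nonneg _) hp,
    ENNReal.ofReal_pow (norm_nonneg _), ofReal_norm, ofReal_norm]

theorem telescoping_real (p : ℝ) (hp : 2 < p) (ε : ℝ) (hε : 0 < ε) : ∃ C : ℝ, 0 < C ∧
    ∀ (M : ℕ) (x : ℕ → ℂ → ℂ) (_ : ∀ l < M, Nice (x l)),
      nrp p (fun z => ∑ i ∈ Finset.range M, x i z) ≤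
        ENNReal.ofReal (1 + ε) * ∑ l ∈ Finset.range M, nrp p (x l)
        + ENNReal.ofReal C * (∑ l ∈ Finset.range M,
            ∫⁻ z, ‖∑ i ∈ Finset.range l, x i z‖ₑ ^ (p - 2) * ‖x l z‖ₑ ^ 2)
        + ENNReal.ofReal p * ∑ l ∈ Finset.range M, ENNReal.ofReal
            |∫ z, ‖∑ i ∈ Finset.range l, x i z‖ ^ (p - 2) *
              (conj (∑ i ∈ Finset.range l, x i z) * x l z).re| := by
  obtain ⟨C, hC, hpi⟩ := pointwise_real p hp ε hε
  refine ⟨C, hC, fun M => ?_⟩
  induction M with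
  | zero =>
    intro x _
    have : nrp p (fun z => ∑ i ∈ Finset.range 0, x i z) = 0 := by
      unfold nrp
      have h0 : 0 < p := by linarith
      simp [h0]
    rw [this]
    exact zero_le
  | succ M ih =>
    intro x hx
    have ih' := ih x (fun l hl => hx l (by omega))
    set a : ℂ → ℂ := fun z => ∑ i ∈ Finset.range M, x i z with ha
    have haN : Nice a := ter_nice_sum x (M + 1) hx M (by omega)
    have hxN : Nice (x M) := hx M (by omega)
    have hsN : Nice (fun z => ∑ i ∈ Finset.range (M + 1), x i z) :=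
      ter_nice_sum x (M + 1) hx (M + 1) le_rfl
    have hint2 : Integrable (fun z => ‖a z‖ ^ (p - 2) * ‖x M z‖ ^ 2) := by
      have := ter_int a (x M) haN hxN (p - 2) 2 (by linarith) (by norm_num)
      simpa using this
    have hint3 : Integrable (fun z => ‖a z‖ ^ (p - 2) * (conj (a z) * x M z).re) := by
      refine (ter_int a (x M) haN hxN (p - 1) 1 (by linarith) le_rfl).mono'
        ((haN.meas.norm.pow_const _).mul
          (measurable_re.comp ((continuous_conj.measurable.comp haN.meas).mul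
            hxN.meas))).aestronglyMeasurable
        (Filter.Eventually.of_forall fun z => ?_)
      rw [norm_mul, Real.norm_of_nonneg (by positivity)]
      calc ‖a z‖ ^ (p - 2) * ‖(conj (a z) * x M z).re‖
          ≤ ‖a z‖ ^ (p - 2) * (‖a z‖ * ‖x M z‖) := by
            gcongr
            refine (Complex.abs_re_le_norm _).trans ?_
            rw [norm_mul, RCLike.norm_conj]
        _ = ‖a z‖ ^ (p - 1) * ‖x M z‖ ^ (1 : ℝ) := by
            rw [Real.rpow_one, ← mul_assoc]
            congr 1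
            rcases (norm_nonneg (a z)).eq_or_lt with h0 | h0
            · rw [← h0, Real.zero_rpow (by linarith), Real.zero_rpow (by linarith), mul_zero]
            · have h2 : ‖a z‖ ^ (p - 1) = ‖a z‖ ^ ((p - 2) + 1) := by congr 1; ring
              rw [h2, Real.rpow_add h0, Real.rpow_one]
    have hmain : ∫ z, ‖∑ i ∈ Finset.range (M + 1), x i z‖ ^ p
        ≤ (∫ z, ‖a z‖ ^ p) + p * |∫ z, ‖a z‖ ^ (p - 2) * (conj (a z) * x M z).re|
          + (1 + ε) * (∫ z, ‖x M z‖ ^ p)
          + C * ∫ z, ‖a z‖ ^ (p - 2) * ‖x M z‖ ^ 2 := by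
      have h1 : ∫ z, (‖a z‖ ^ p + p * (‖a z‖ ^ (p - 2) * (conj (a z) * x M z).re)
          + (1 + ε) * ‖x M z‖ ^ p + C * (‖a z‖ ^ (p - 2) * ‖x M z‖ ^ 2))
          = (∫ z, ‖a z‖ ^ p) + p * (∫ z, ‖a z‖ ^ (p - 2) * (conj (a z) * x M z).re)
            + (1 + ε) * (∫ z, ‖x M z‖ ^ p)
            + C * ∫ z, ‖a z‖ ^ (p - 2) * ‖x M z‖ ^ 2 := by
        rw [integral_add, integral_add, integral_add, integral_const_mul, integral_const_mul,
          integral_const_mul]
        · exact ter_int' a haN _ (by linarith)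
        · exact hint3.const_mul _
        · exact (ter_int' a haN _ (by linarith)).add (hint3.const_mul _)
        · exact (ter_int' (x M) hxN _ (by linarith)).const_mul _
        · exact ((ter_int' a haN _ (by linarith)).add (hint3.const_mul _)).add
            ((ter_int' (x M) hxN _ (by linarith)).const_mul _)
        · exact hint2.const_mul _
      have h2 : ∫ z, ‖∑ i ∈ Finset.range (M + 1), x i z‖ ^ p ≤
          ∫ z, (‖a z‖ ^ p + p * (‖a z‖ ^ (p - 2) * (conj (a z) * x M z).re)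
          + (1 + ε) * ‖x M z‖ ^ p + C * (‖a z‖ ^ (p - 2) * ‖x M z‖ ^ 2)) := by
        refine integral_mono (ter_int' _ hsN _ (by linarith)) ?_ fun z => ?_
        · exact (((ter_int' a haN _ (by linarith)).add (hint3.const_mul _)).add
              ((ter_int' (x M) hxN _ (by linarith)).const_mul _)).add
              (hint2.const_mul _)
        · have := hpi (a z) (x M z)
          rw [Finset.sum_range_succ]
          exact this
      rw [h1] at h2
      have h3 : p * (∫ z, ‖a z‖ ^ (p - 2) * (conj (a z) * x M z).re)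
          ≤ p * |∫ z, ‖a z‖ ^ (p - 2) * (conj (a z) * x M z).re| :=
        mul_le_mul_of_nonneg_left (le_abs_self _) (by linarith)
      linarith
    have hp0 : 0 < p := by linarith
    have hstep : nrp p (fun z => ∑ i ∈ Finset.range (M + 1), x i z)
        ≤ nrp p a + ENNReal.ofReal p *
            ENNReal.ofReal |∫ z, ‖a z‖ ^ (p - 2) * (conj (a z) * x M z).re|
          + ENNReal.ofReal (1 + ε) * nrp p (x M)
          + ENNReal.ofReal C * ∫⁻ z, ‖a z‖ₑ ^ (p - 2) * ‖x M z‖ₑ ^ 2 := by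
      rw [ter_nrp _ hsN _ (by linarith), ter_nrp a haN _ (by linarith),
        ter_nrp (x M) hxN _ (by linarith),
        ter_mix a (x M) haN hxN _ (by linarith), ← ENNReal.ofReal_mul (by positivity),
        ← ENNReal.ofReal_mul (by positivity),
        ← ENNReal.ofReal_mul hC.le, ← ENNReal.ofReal_add (by positivity) (by positivity),
        ← ENNReal.ofReal_add (by positivity) (by positivity),
        ← ENNReal.ofReal_add (by positivity) (by positivity)]
      exact ENNReal.ofReal_le_ofReal hmain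
    refine hstep.trans ?_
    rw [Finset.sum_range_succ, Finset.sum_range_succ, Finset.sum_range_succ, mul_add, mul_add,
      mul_add]
    calc nrp p a + ENNReal.ofReal p *
            ENNReal.ofReal |∫ z, ‖a z‖ ^ (p - 2) * (conj (a z) * x M z).re|
          + ENNReal.ofReal (1 + ε) * nrp p (x M)
          + ENNReal.ofReal C * ∫⁻ z, ‖a z‖ₑ ^ (p - 2) * ‖x M z‖ₑ ^ 2
        ≤ (ENNReal.ofReal (1 + ε) * ∑ l ∈ Finset.range M, nrp p (x l)
          + ENNReal.ofReal C * (∑ l ∈ Finset.range M,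
            ∫⁻ z, ‖∑ i ∈ Finset.range l, x i z‖ₑ ^ (p - 2) * ‖x l z‖ₑ ^ 2)
          + ENNReal.ofReal p * ∑ l ∈ Finset.range M, ENNReal.ofReal
            |∫ z, ‖∑ i ∈ Finset.range l, x i z‖ ^ (p - 2) *
              (conj (∑ i ∈ Finset.range l, x i z) * x l z).re|)
          + ENNReal.ofReal p *
            ENNReal.ofReal |∫ z, ‖a z‖ ^ (p - 2) * (conj (a z) * x M z).re|
          + ENNReal.ofReal (1 + ε) * nrp p (x M)
          + ENNReal.ofReal C * ∫⁻ z, ‖a z‖ₑ ^ (p - 2) * ‖x M z‖ₑ ^ 2 := by gcongr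
      _ = _ := by simp only [ha]; ring

end Helper85.BP.P
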