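import Pool.Agent.Helper85.IW.Statements

set_option autoImplicit false
set_option maxSynthPendingDepth 3

open MeasureTheory Complex Filter Topology
open scoped ENNReal NNReal ComplexConjugate

noncomputable section

namespace Helper85.IW.M_D2

/-- the form built from the real part -/
theorem covR_sub_le (α β α' β' : ℝ) (z z' : E) :
    ‖covR α β z - covR α' β' z'‖ ≤ ‖α • z.1 - α' • z'.1‖ + ‖β • z.2 - β' • z'.2‖ := by
  apply ContinuousLinearMap.opNorm_le_bound _ (by positivity)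
  intro X
  have e : (covR α β z - covR α' β' z') X
      = (conj (α • z.1 - α' • z'.1) * X.1).re + (conj (β • z.2 - β' • z'.2) * X.2).re := by
    rw [_root_.sub_apply, covR_apply, covR_apply]
    simp only [map_sub, real_smul, map_mul, conj_ofReal, sub_mul, sub_re, mul_assoc, re_ofReal_mul]
    ring
  rw [e, Real.norm_eq_abs, add_mul]
  refine (abs_add_le _ _).trans (add_le_add ?_ ?_)
  · refine (abs_re_le_norm _).trans ?_
    rw [norm_mul, RCLike.norm_conj]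
    exact mul_le_mul_of_nonneg_left (norm_fst_le X) (norm_nonneg _)
  · refine (abs_re_le_norm _).trans ?_
    rw [norm_mul, RCLike.norm_conj]
    exact mul_le_mul_of_nonneg_left (norm_snd_le X) (norm_nonneg _)

theorem covI_sub_le (α β α' β' : ℝ) (z z' : E) :
    ‖covI α β z - covI α' β' z'‖ ≤ ‖α • z.1 - α' • z'.1‖ + ‖β • z.2 - β' • z'.2‖ := by
  apply ContinuousLinearMap.opNorm_le_bound _ (by positivity)
  intro X
  have e : (covI α β z - covI α' β' z') X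
      = (conj (α • z.1 - α' • z'.1) * X.1).im + (conj (β • z.2 - β' • z'.2) * X.2).im := by
    rw [_root_.sub_apply, covI_apply, covI_apply]
    simp only [map_sub, real_smul, map_mul, conj_ofReal, sub_mul, sub_im, mul_assoc, im_ofReal_mul]
    ring
  rw [e, Real.norm_eq_abs, add_mul]
  refine (abs_add_le _ _).trans (add_le_add ?_ ?_)
  · refine (abs_im_le_norm _).trans ?_
    rw [norm_mul, RCLike.norm_conj]
    exact mul_le_mul_of_nonneg_left (norm_fst_le X) (norm_nonneg _)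
  · refine (abs_im_le_norm _).trans ?_
    rw [norm_mul, RCLike.norm_conj]
    exact mul_le_mul_of_nonneg_left (norm_snd_le X) (norm_nonneg _)

theorem lip_covR {α β : E → ℝ} {S : Set E} {K₁ K₂ : ℝ≥0}
    (h1 : LipschitzOnWith K₁ (fun z : E => α z • z.1) S)
    (h2 : LipschitzOnWith K₂ (fun z : E => β z • z.2) S) :
    LipschitzOnWith (K₁ + K₂) (fun z : E => covR (α z) (β z) z) S := by
  apply LipschitzOnWith.of_dist_le_mul
  intro x hx y hy
  have a1 := h1.dist_le_mul x hx y hy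
  have a2 := h2.dist_le_mul x hx y hy
  rw [dist_eq_norm] at a1 a2
  rw [dist_eq_norm, NNReal.coe_add, add_mul]
  exact (covR_sub_le _ _ _ _ _ _).trans (add_le_add a1 a2)

theorem lip_covI {α β : E → ℝ} {S : Set E} {K₁ K₂ : ℝ≥0}
    (h1 : LipschitzOnWith K₁ (fun z : E => α z • z.1) S)
    (h2 : LipschitzOnWith K₂ (fun z : E => β z • z.2) S) :
    LipschitzOnWith (K₁ + K₂) (fun z : E => covI (α z) (β z) z) S := by
  apply LipschitzOnWith.of_dist_le_mul
  intro x hx y hy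
  have a1 := h1.dist_le_mul x hx y hy
  have a2 := h2.dist_le_mul x hx y hy
  rw [dist_eq_norm] at a1 a2
  rw [dist_eq_norm, NNReal.coe_add, add_mul]
  exact (covI_sub_le _ _ _ _ _ _).trans (add_le_add a1 a2)

/-- functions that are once continuously differentiable on a compact interval are Lipschitz -/
theorem lip_Icc (a : ℝ → ℝ) (u v : ℝ) (h : ∀ x ∈ Set.Icc u v, ContDiffAt ℝ 1 a x) :
    ∃ K : ℝ≥0, LipschitzOnWith K a (Set.Icc u v) :=
  ContDiffOn.exists_lipschitzOnWith (n := 1) (fun x hx => (h x hx).contDiffWithinAt)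
    one_ne_zero (convex_Icc u v) isCompact_Icc

def S1 (p R : ℝ) : Set E := {z : E | CC p * ‖z.1‖ ≤ ‖z.2‖} ∩ Metric.closedBall 0 R
def S2 (p R : ℝ) : Set E := {z : E | ‖z.2‖ ≤ CC p * ‖z.1‖} ∩ Metric.closedBall 0 R

theorem S1_sub {p R : ℝ} (hC : 1 < CC p) :
    S1 p R ⊆ {z : E | ‖z‖ ≤ R ∧ 0 * (‖z.1‖ + ‖z.2‖) ≤ ‖z.1‖ ∧
      ‖z.1‖ ≤ (1 / (1 + CC p)) * (‖z.1‖ + ‖z.2‖)} := by
  rintro z ⟨h1, h2⟩
  rw [Metric.mem_closedBall, dist_zero_right] at h2
  refine ⟨h2, by simp, ?_⟩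
  have h1' : CC p * ‖z.1‖ ≤ ‖z.2‖ := h1
  rw [div_mul_eq_mul_div, one_mul, le_div_iff₀ (by linarith)]
  linarith

theorem S2_sub {p R : ℝ} (hC : 1 < CC p) :
    S2 p R ⊆ {z : E | ‖z‖ ≤ R ∧ (1 / (1 + CC p)) * (‖z.1‖ + ‖z.2‖) ≤ ‖z.1‖ ∧
      ‖z.1‖ ≤ 1 * (‖z.1‖ + ‖z.2‖)} := by
  rintro z ⟨h1, h2⟩
  rw [Metric.mem_closedBall, dist_zero_right] at h2
  have h1' : ‖z.2‖ ≤ CC p * ‖z.1‖ := h1
  refine ⟨h2, ?_, ?_⟩
  · rw [div_mul_eq_mul_div, one_mul, div_le_iff₀ (by linarith)]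
    linarith
  · have := norm_nonneg z.2
    linarith

/-- region 1: a coefficient of the form `L^k a(w)` -/
theorem reg1 (hA : StD2a) {p : ℝ} (hp : 2 < p) (hC : 1 < CC p) (a : ℝ → ℝ)
    (ha : ∀ w : ℝ, 0 ≤ w → w < 1 → ContDiffAt ℝ 1 a w) (R : ℝ) :
    ∃ K : ℝ≥0,
      LipschitzOnWith K (fun z : E => ((‖z.1‖ + ‖z.2‖) ^ (p - 2) *
        a (‖z.1‖ / (‖z.1‖ + ‖z.2‖))) • z.1) (S1 p R) ∧
      LipschitzOnWith K (fun z : E => ((‖z.1‖ + ‖z.2‖) ^ (p - 2) *
        a (‖z.1‖ / (‖z.1‖ + ‖z.2‖))) • z.2) (S1 p R) := by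
  have hv : 1 / (1 + CC p) < 1 := by
    rw [div_lt_one (by linarith)]; linarith
  obtain ⟨K, hK⟩ := lip_Icc a 0 (1 / (1 + CC p))
    (fun w hw => ha w hw.1 (lt_of_le_of_lt hw.2 hv))
  obtain ⟨K', h1, h2⟩ := hA (p - 2) a 0 (1 / (1 + CC p)) K (by linarith) le_rfl hv.le hK R
  exact ⟨K', h1.mono (S1_sub hC), h2.mono (S1_sub hC)⟩

/-- region 2 -/
theorem reg2 (hA : StD2a) {p : ℝ} (hp : 2 < p) (hC : 1 < CC p) (a : ℝ → ℝ)
    (ha : ∀ w : ℝ, 0 < w → w ≤ 1 → ContDiffAt ℝ 1 a w) (R : ℝ) :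
    ∃ K : ℝ≥0,
      LipschitzOnWith K (fun z : E => ((‖z.1‖ + ‖z.2‖) ^ (p - 2) *
        a (‖z.1‖ / (‖z.1‖ + ‖z.2‖))) • z.1) (S2 p R) ∧
      LipschitzOnWith K (fun z : E => ((‖z.1‖ + ‖z.2‖) ^ (p - 2) *
        a (‖z.1‖ / (‖z.1‖ + ‖z.2‖))) • z.2) (S2 p R) := by
  have hv : 0 < 1 / (1 + CC p) := by
    have : 0 < 1 + CC p := by linarith
    positivity
  obtain ⟨K, hK⟩ := lip_Icc a (1 / (1 + CC p)) 1
    (fun w hw => ha w (lt_of_lt_of_le hv hw.1) hw.2)
  obtain ⟨K', h1, h2⟩ := hA (p - 2) a (1 / (1 + CC p)) 1 K (by linarith) hv.le le_rfl hK R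
  exact ⟨K', h1.mono (S2_sub hC), h2.mono (S2_sub hC)⟩

theorem ball_fst {R : ℝ} {S : Set E} (hS : S ⊆ Metric.closedBall 0 R) :
    Set.MapsTo (fun z : E => z.1) S (Metric.closedBall (0 : ℂ) R) := by
  intro z hz
  have := hS hz
  rw [Metric.mem_closedBall, dist_zero_right] at this ⊢
  exact (norm_fst_le z).trans this

theorem ball_snd {R : ℝ} {S : Set E} (hS : S ⊆ Metric.closedBall 0 R) :
    Set.MapsTo (fun z : E => z.2) S (Metric.closedBall (0 : ℂ) R) := by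
  intro z hz
  have := hS hz
  rw [Metric.mem_closedBall, dist_zero_right] at this ⊢
  exact (norm_snd_le z).trans this

theorem pw1 (hB : StD2b) {p : ℝ} (hp : 2 < p) (R : ℝ) (c : ℝ) {S : Set E}
    (hS : S ⊆ Metric.closedBall 0 R) :
    ∃ K : ℝ≥0, LipschitzOnWith K (fun z : E => (c * ‖z.1‖ ^ (p - 2)) • z.1) S := by
  obtain ⟨K, hK⟩ := hB (p - 2) (by linarith) R
  refine ⟨‖c‖₊ * (K * 1), ?_⟩
  have h1 : LipschitzOnWith (K * 1) (fun z : E => (‖z.1‖ ^ (p - 2)) • z.1) S :=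
    hK.comp (LipschitzWith.prod_fst.lipschitzOnWith) (ball_fst hS)
  apply LipschitzOnWith.of_dist_le_mul
  intro x hx y hy
  have a1 := h1.dist_le_mul x hx y hy
  have e : dist ((c * ‖x.1‖ ^ (p - 2)) • x.1) ((c * ‖y.1‖ ^ (p - 2)) • y.1)
      = ‖c‖ * dist ((‖x.1‖ ^ (p - 2)) • x.1) ((‖y.1‖ ^ (p - 2)) • y.1) := by
    rw [mul_smul, mul_smul, dist_smul₀]
  simp only [e, NNReal.coe_mul, coe_nnnorm]
  rw [mul_assoc]
  exact mul_le_mul_of_nonneg_left a1 (norm_nonneg _)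

theorem pw2 (hB : StD2b) {p : ℝ} (hp : 2 < p) (R : ℝ) (c : ℝ) {S : Set E}
    (hS : S ⊆ Metric.closedBall 0 R) :
    ∃ K : ℝ≥0, LipschitzOnWith K (fun z : E => (c * ‖z.2‖ ^ (p - 2)) • z.2) S := by
  obtain ⟨K, hK⟩ := hB (p - 2) (by linarith) R
  refine ⟨‖c‖₊ * (K * 1), ?_⟩
  have h1 : LipschitzOnWith (K * 1) (fun z : E => (‖z.2‖ ^ (p - 2)) • z.2) S :=
    hK.comp (LipschitzWith.prod_snd.lipschitzOnWith) (ball_snd hS)
  apply LipschitzOnWith.of_dist_le_mul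
  intro x hx y hy
  have a1 := h1.dist_le_mul x hx y hy
  have e : dist ((c * ‖x.2‖ ^ (p - 2)) • x.2) ((c * ‖y.2‖ ^ (p - 2)) • y.2)
      = ‖c‖ * dist ((‖x.2‖ ^ (p - 2)) • x.2) ((‖y.2‖ ^ (p - 2)) • y.2) := by
    rw [mul_smul, mul_smul, dist_smul₀]
  simp only [e, NNReal.coe_mul, coe_nnnorm]
  rw [mul_assoc]
  exact mul_le_mul_of_nonneg_left a1 (norm_nonneg _)

/-- the value in region 2 of a coefficient function defined by cases -/
theorem ite_reg2 {p : ℝ} (f1 f2 : ℝ → ℝ → ℝ) (hI : ∀ r s : ℝ, 0 < r → CC p * r = s → f1 r s = f2 r s)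
    {z : E} (hz : ‖z.2‖ ≤ CC p * ‖z.1‖) (g : ℂ) (hg : z = 0 → g = 0) :
    (if CC p * ‖z.1‖ ≤ ‖z.2‖ then f1 ‖z.1‖ ‖z.2‖ else f2 ‖z.1‖ ‖z.2‖) • g
      = (f2 ‖z.1‖ ‖z.2‖) • g := by
  split_ifs with h
  · have he : CC p * ‖z.1‖ = ‖z.2‖ := le_antisymm h hz
    rcases eq_or_lt_of_le (norm_nonneg z.1) with h0 | h0
    · have h2 : ‖z.2‖ = 0 := by rw [← he, ← h0, mul_zero]
      have : z = 0 := Prod.ext (norm_eq_zero.1 h0.symm) (norm_eq_zero.1 h2)
      rw [hg this, smul_zero, smul_zero]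
    · rw [hI _ _ h0 he]
  · rfl

theorem glue (hG : StD2c) {p : ℝ} (F : E → (E →L[ℝ] ℝ)) (R : ℝ)
    (h1 : ∃ K : ℝ≥0, LipschitzOnWith K F (S1 p R)) (h2 : ∃ K : ℝ≥0, LipschitzOnWith K F (S2 p R)) :
    ∃ K : ℝ≥0, LipschitzOnWith K F (Metric.closedBall 0 R) := by
  obtain ⟨K1, h1⟩ := h1
  obtain ⟨K2, h2⟩ := h2
  refine ⟨max K1 K2, hG F {z : E | CC p * ‖z.1‖ ≤ ‖z.2‖} {z : E | ‖z.2‖ ≤ CC p * ‖z.1‖}
    (max K1 K2) R ?_ ?_ ?_ (h1.weaken (le_max_left _ _)) (h2.weaken (le_max_right _ _))⟩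
  · exact isClosed_le (by fun_prop) (by fun_prop)
  · exact isClosed_le (by fun_prop) (by fun_prop)
  · ext z
    simp only [Set.mem_union, Set.mem_ofPred_eq, Set.mem_univ, iff_true]
    exact le_total _ _

theorem cd_mt (p : ℝ) (w : ℝ) : ContDiffAt ℝ 1 (fun w => mt (1 / p) (p * w)) w := by
  unfold mt mux h0x h1x
  fun_prop

theorem cd_nt (p : ℝ) (w : ℝ) : ContDiffAt ℝ 1 (fun w => nt (1 / p) (p * w)) w := by
  unfold nt nu h0 h1
  fun_prop

theorem cd_q (p : ℝ) (w : ℝ) : ContDiffAt ℝ 1 (fun w => q0xx (p * w)) w := by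
  unfold q0xx
  fun_prop

theorem cd_r (p : ℝ) (w : ℝ) : ContDiffAt ℝ 1 (fun w => r0 (p * w)) w := by
  unfold r0
  fun_prop

theorem cd_pow (p : ℝ) (hp : 2 < p) (w : ℝ) : ContDiffAt ℝ 1 (fun w : ℝ => (1 - w) ^ p) w := by
  have h : ContDiff ℝ ((1 : ℕ) : WithTop ℕ∞) (fun x : ℝ => x ^ p) :=
    Real.contDiff_rpow_const_of_le (by push_cast; linarith)
  have h' : ContDiff ℝ 1 (fun x : ℝ => x ^ p) := h
  have h2 : ContDiff ℝ 1 (fun w : ℝ => 1 - w) := by fun_prop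
  exact (h'.comp h2).contDiffAt

theorem lip_congr {f g : E → ℂ} {K : ℝ≥0} {S : Set E} (h : LipschitzOnWith K f S)
    (he : ∀ z ∈ S, g z = f z) : LipschitzOnWith K g S := by
  intro x hx y hy
  rw [he x hx, he y hy]
  exact h hx hy

theorem fst_zero (z : E) (h : z = 0) : z.1 = 0 := by rw [h]; rfl
theorem snd_zero (z : E) (h : z = 0) : z.2 = 0 := by rw [h]; rfl

theorem main (hK : StK) (hI : StI) (hA : StD2a) (hB : StD2b) (hG : StD2c) : StD2 := by
  intro p hp R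
  obtain ⟨-, hC, -⟩ := hK p hp
  have hI' := hI p hp
  have hS2 : S2 p R ⊆ Metric.closedBall 0 R := Set.inter_subset_right
  have hif : ∀ (f1 f2 : ℝ → ℝ → ℝ) (z : E), z ∈ S1 p R →
      (if CC p * ‖z.1‖ ≤ ‖z.2‖ then f1 ‖z.1‖ ‖z.2‖ else f2 ‖z.1‖ ‖z.2‖) = f1 ‖z.1‖ ‖z.2‖ := by
    intro f1 f2 z hz
    exact if_pos hz.1
  constructor
  · apply glue hG (p := p)
    · -- region 1
      obtain ⟨K1, hK1, -⟩ := reg1 hA hp hC (fun w => cc p * p ^ 2 * mt (1 / p) (p * w))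
        (fun w _ _ => contDiffAt_const.mul (cd_mt p w)) R
      obtain ⟨K2, -, hK2⟩ := reg1 hA hp hC
        (fun w => cc p * p * (nt (1 / p) (p * w) / (1 - w)))
        (fun w _ hw => contDiffAt_const.mul ((cd_nt p w).div (by fun_prop) (by linarith))) R
      refine ⟨K1 + K2, lip_covR (lip_congr hK1 fun z hz => ?_) (lip_congr hK2 fun z hz => ?_)⟩
      · rw [al, hif _ _ z hz, al1]
        congr 1
        ring
      · rw [be, hif _ _ z hz, be1]
        congr 1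
        ring
    · -- region 2
      obtain ⟨K1, hK1⟩ := pw1 hB hp R (p * CC p ^ p) hS2
      obtain ⟨K2, hK2⟩ := pw2 hB hp R (-p) hS2
      refine ⟨K1 + K2, lip_covR (lip_congr hK1 fun z hz => ?_) (lip_congr hK2 fun z hz => ?_)⟩
      · have := ite_reg2 (al1 p) (al2 p) (fun r s h1 h2 => (hI' r s h1 h2).1) hz.1 z.1
          (fst_zero z)
        rw [al, this, al2]
      · have := ite_reg2 (be1 p) (be2 p) (fun r s h1 h2 => (hI' r s h1 h2).2.1) hz.1 z.2
          (snd_zero z)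
        rw [be, this, be2]
        congr 1
        ring
  · apply glue hG (p := p)
    · -- region 1
      obtain ⟨K1, hK1, -⟩ := reg1 hA hp hC
        (fun w => cc p * p ^ 2 * (mt (1 / p) (p * w) - pf (1 / p) * q0xx (p * w)))
        (fun w _ _ => contDiffAt_const.mul ((cd_mt p w).sub (contDiffAt_const.mul (cd_q p w)))) R
      obtain ⟨K2, -, hK2⟩ := reg1 hA hp hC
        (fun w => cc p * p * (pf (1 / p) * r0 (p * w) / (1 - w) ^ 2
          - nt (1 / p) (p * w) / (1 - w)))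
        (fun w _ hw => contDiffAt_const.mul
          (((contDiffAt_const.mul (cd_r p w)).div (by fun_prop)
            (by have : 0 < 1 - w := by linarith
                positivity)).sub
            ((cd_nt p w).div (by fun_prop) (by linarith)))) R
      refine ⟨K1 + K2, lip_covI (lip_congr hK1 fun z hz => ?_) (lip_congr hK2 fun z hz => ?_)⟩
      · rw [Af, hif _ _ z hz, A1]
        congr 1
        ring
      · rw [Bf, hif _ _ z hz, B1]
        congr 1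
        ring
    · -- region 2
      obtain ⟨K1, hK1⟩ := pw1 hB hp R (2 * CC p ^ p) hS2
      obtain ⟨K2, hK2⟩ := pw2 hB hp R (MM p + p) hS2
      obtain ⟨K3, hK3, -⟩ := reg2 hA hp hC (fun w => mm p * ((1 - w) ^ p / w ^ 2))
        (fun w hw _ => contDiffAt_const.mul (ContDiffAt.div
          (cd_pow p hp w)
          (by fun_prop) (by positivity))) R
      refine ⟨(K1 + K3) + K2, lip_covI (lip_congr (hK1.add hK3) fun z hz => ?_)
        (lip_congr hK2 fun z hz => ?_)⟩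
      · have := ite_reg2 (A1 p) (A2 p) (fun r s h1 h2 => (hI' r s h1 h2).2.2.1) hz.1 z.1
          (fst_zero z)
        rw [Af, this, A2]
        rcases eq_or_ne z.1 0 with h0 | h0
        · simp [h0]
        · rw [← add_smul]
          congr 1
          congr 1
          set r := ‖z.1‖ with hr
          set s := ‖z.2‖ with hs
          have hr0 : 0 < r := norm_pos_iff.2 h0
          have hs0 : 0 ≤ s := norm_nonneg _
          have hL : 0 < r + s := by linarith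
          have e1 : 1 - r / (r + s) = s / (r + s) := by
            field_simp
            ring
          rw [e1, Real.div_rpow hs0 hL.le, Real.rpow_sub hL]
          have hLp : (r + s) ^ p ≠ 0 := (Real.rpow_pos_of_pos hL p).ne'
          have e2 : (r + s) ^ (2 : ℝ) = (r + s) ^ 2 := Real.rpow_natCast _ 2
          rw [e2]
          field_simp
      · have := ite_reg2 (B1 p) (B2 p) (fun r s h1 h2 => (hI' r s h1 h2).2.2.2.1) hz.1 z.2
          (snd_zero z)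
        rw [Bf, this, B2]

end Helper85.IW.M_D2
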