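import Pool.Agent.Helper85.IW.Statements

set_option autoImplicit false
set_option maxSynthPendingDepth 3

open MeasureTheory Complex Filter Topology
open scoped ENNReal NNReal ComplexConjugate

noncomputable section

namespace Helper85.IW.M_D2abc

/-- glueing -/
theorem mainD2c : StD2c := by
  intro F S₁ S₂ K R h1 h2 hU hL1 hL2
  have key : ∀ x ∈ Metric.closedBall (0 : E) R, ∀ y ∈ Metric.closedBall (0 : E) R,
      x ∈ S₁ → y ∈ S₂ → edist (F x) (F y) ≤ K * edist x y := by
    intro x hx y hy hx1 hy2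
    have hseg : segment ℝ x y ⊆ Metric.closedBall (0 : E) R :=
      (convex_closedBall (0 : E) R).segment_subset hx hy
    have hpre : IsPreconnected (segment ℝ x y) := (convex_segment x y).isPreconnected
    obtain ⟨m, hm, hm1, hm2⟩ := (isPreconnected_closed_iff.1 hpre) S₁ S₂ h1 h2
      (by rw [hU]; exact Set.subset_univ _)
      ⟨x, left_mem_segment ℝ x y, hx1⟩ ⟨y, right_mem_segment ℝ x y, hy2⟩
    have hmB := hseg hm
    have e1 := hL1 ⟨hx1, hx⟩ ⟨hm1, hmB⟩
    have e2 := hL2 ⟨hm2, hmB⟩ ⟨hy2, hy⟩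
    have e3 : edist x m + edist m y = edist x y := by
      rw [edist_dist, edist_dist, edist_dist, ← ENNReal.ofReal_add dist_nonneg dist_nonneg,
        dist_add_dist_of_mem_segment hm]
    calc edist (F x) (F y) ≤ edist (F x) (F m) + edist (F m) (F y) := edist_triangle _ _ _
      _ ≤ K * edist x m + K * edist m y := add_le_add e1 e2
      _ = K * edist x y := by rw [← mul_add, e3]
  intro x hx y hy
  have hxU : x ∈ S₁ ∪ S₂ := by rw [hU]; trivial
  have hyU : y ∈ S₁ ∪ S₂ := by rw [hU]; trivial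
  rcases hxU with hx1 | hx2
  · rcases hyU with hy1 | hy2
    · exact hL1 ⟨hx1, hx⟩ ⟨hy1, hy⟩
    · exact key x hx y hy hx1 hy2
  · rcases hyU with hy1 | hy2
    · rw [edist_comm (F x), edist_comm x]
      exact key y hy x hx hy1 hx2
    · exact hL2 ⟨hx2, hx⟩ ⟨hy2, hy⟩

/-- the elementary inequality -/
theorem pow_diff {κ x y T : ℝ} (hκ : 0 < κ) (hx : 0 ≤ x) (hxy : x ≤ y) (hyT : y ≤ T) :
    (y ^ κ - x ^ κ) * y ≤ (κ + 1) * T ^ κ * (y - x) := by
  rcases eq_or_lt_of_le (hx.trans hxy) with hy | hy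
  · have hx0 : x = 0 := le_antisymm (hy ▸ hxy) hx
    subst hx0
    rw [← hy]
    simp
  · have b := one_add_mul_self_le_rpow_one_add (s := x / y - 1) (by
      have : 0 ≤ x / y := div_nonneg hx hy.le
      linarith) (p := κ + 1) (by linarith)
    have e1 : 1 + (x / y - 1) = x / y := by ring
    rw [e1, Real.div_rpow hx hy.le, le_div_iff₀ (Real.rpow_pos_of_pos hy _)] at b
    have e2 : y ^ (κ + 1) = y ^ κ * y := by
      rw [Real.rpow_add hy, Real.rpow_one]
    have e3 : x ^ (κ + 1) = x ^ κ * x := by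
      rcases eq_or_lt_of_le hx with h | h
      · rw [← h, Real.zero_rpow (by linarith), mul_zero]
      · rw [Real.rpow_add h, Real.rpow_one]
    rw [e2, e3] at b
    have e4 : (1 + (κ + 1) * (x / y - 1)) * (y ^ κ * y)
        = y ^ κ * y + (κ + 1) * (x - y) * y ^ κ := by
      field_simp
    rw [e4] at b
    have h1 : x ^ κ * x ≤ x ^ κ * y := mul_le_mul_of_nonneg_left hxy (Real.rpow_nonneg hx _)
    have h2 : (κ + 1) * y ^ κ * (y - x) ≤ (κ + 1) * T ^ κ * (y - x) := by
      apply mul_le_mul_of_nonneg_right _ (by linarith)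
      exact mul_le_mul_of_nonneg_left (Real.rpow_le_rpow hy.le hyT hκ.le) (by linarith)
    nlinarith

/-- general estimate: two points `L ≤ L'` -/
theorem vec_est {κ L L' T d : ℝ} {g g' : ℂ} (hκ : 0 < κ) (hL : 0 ≤ L) (hLL : L ≤ L')
    (hLT : L' ≤ T) (hg' : ‖g'‖ ≤ L') (hd : ‖g - g'‖ ≤ d) (hdL : L' - L ≤ 2 * d) :
    ‖(L ^ κ) • g - (L' ^ κ) • g'‖ ≤ (T ^ κ + 2 * ((κ + 1) * T ^ κ)) * d := by
  have e : (L ^ κ) • g - (L' ^ κ) • g' = (L ^ κ) • (g - g') - (L' ^ κ - L ^ κ) • g' := by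
    rw [smul_sub, sub_smul]; abel
  rw [e]
  have hd0 : 0 ≤ d := (norm_nonneg _).trans hd
  have hm : L ^ κ ≤ L' ^ κ := Real.rpow_le_rpow hL hLL hκ.le
  have hT0 : 0 ≤ T := hL.trans (hLL.trans hLT)
  have h1 : ‖(L ^ κ) • (g - g')‖ ≤ T ^ κ * d := by
    rw [norm_smul, Real.norm_eq_abs, abs_of_nonneg (Real.rpow_nonneg hL _)]
    exact mul_le_mul (Real.rpow_le_rpow hL (hLL.trans hLT) hκ.le) hd (norm_nonneg _)
      (Real.rpow_nonneg hT0 _)
  have h2 : ‖(L' ^ κ - L ^ κ) • g'‖ ≤ 2 * ((κ + 1) * T ^ κ) * d := by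
    rw [norm_smul, Real.norm_eq_abs, abs_of_nonneg (by linarith)]
    calc (L' ^ κ - L ^ κ) * ‖g'‖ ≤ (L' ^ κ - L ^ κ) * L' :=
          mul_le_mul_of_nonneg_left hg' (by linarith)
      _ ≤ (κ + 1) * T ^ κ * (L' - L) := pow_diff hκ hL hLL hLT
      _ ≤ (κ + 1) * T ^ κ * (2 * d) := by
          apply mul_le_mul_of_nonneg_left hdL
          have := Real.rpow_nonneg hT0 κ
          positivity
      _ = 2 * ((κ + 1) * T ^ κ) * d := by ring
  calc _ ≤ _ := norm_sub_le _ _
    _ ≤ T ^ κ * d + 2 * ((κ + 1) * T ^ κ) * d := add_le_add h1 h2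
    _ = _ := by ring

/-- symmetric Lipschitz criterion -/
theorem lip_of_symm {α : Type} [PseudoMetricSpace α] (f : α → ℂ) (S : Set α) (N : α → ℝ)
    (C : ℝ) (hC : 0 ≤ C)
    (h : ∀ x ∈ S, ∀ y ∈ S, N x ≤ N y → ‖f x - f y‖ ≤ C * dist x y) :
    LipschitzOnWith C.toNNReal f S := by
  apply LipschitzOnWith.of_dist_le_mul
  intro x hx y hy
  rw [Real.coe_toNNReal _ hC, dist_eq_norm]
  rcases le_total (N x) (N y) with hxy | hxy
  · exact h x hx y hy hxy
  · rw [norm_sub_rev, dist_comm]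
    exact h y hy x hx hxy

theorem mainD2b : StD2b := by
  intro κ hκ R
  have hT : 0 ≤ max R 0 := le_max_right _ _
  have hTκ : 0 ≤ (max R 0) ^ κ := Real.rpow_nonneg hT κ
  refine ⟨_, lip_of_symm _ _ (fun z => ‖z‖)
    ((max R 0) ^ κ + 2 * ((κ + 1) * (max R 0) ^ κ)) (by positivity) ?_⟩
  intro x hx y hy hxy
  rw [Metric.mem_closedBall, dist_zero_right] at hx hy
  rw [dist_eq_norm]
  refine vec_est hκ (norm_nonneg _) hxy (hy.trans (le_max_left _ _)) le_rfl le_rfl ?_
  have h1 := norm_sub_norm_le y x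
  rw [norm_sub_rev] at h1
  have h2 := norm_nonneg (x - y)
  linarith

theorem mainD2a : StD2a := by
  intro κ a u v K hκ hu hv ha R
  set T : ℝ := 2 * max R 0 with hTdef
  have hT : 0 ≤ T := by
    have := le_max_right R 0
    linarith
  have hTκ : 0 ≤ T ^ κ := Real.rpow_nonneg hT κ
  set M : ℝ := |a u| + K with hM
  have hM0 : 0 ≤ M := by positivity
  set C0 : ℝ := T ^ κ + 2 * ((κ + 1) * T ^ κ) with hC0
  have hC0' : 0 ≤ C0 := by positivity
  set C : ℝ := M * C0 + K * 3 * T ^ κ with hCdef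
  have hC : 0 ≤ C := by positivity
  have key : ∀ g : E → ℂ, (∀ z, ‖g z‖ ≤ ‖z.1‖ + ‖z.2‖) → (∀ z z', ‖g z - g z'‖ ≤ ‖z - z'‖) →
      LipschitzOnWith C.toNNReal
        (fun z : E => ((‖z.1‖ + ‖z.2‖) ^ κ * a (‖z.1‖ / (‖z.1‖ + ‖z.2‖))) • g z)
      {z : E | ‖z‖ ≤ R ∧ u * (‖z.1‖ + ‖z.2‖) ≤ ‖z.1‖ ∧ ‖z.1‖ ≤ v * (‖z.1‖ + ‖z.2‖)} := by
    intro g hg1 hg2
    refine lip_of_symm _ _ (fun z => ‖z.1‖ + ‖z.2‖) C hC ?_
    intro x hx y hy hxy
    obtain ⟨hxR, hx1, hx2⟩ := hx
    obtain ⟨hyR, hy1, hy2⟩ := hy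
    rw [dist_eq_norm]
    set L := ‖x.1‖ + ‖x.2‖ with hL
    set L' := ‖y.1‖ + ‖y.2‖ with hL'
    have hL0 : 0 ≤ L := by positivity
    have hxy' : L ≤ L' := hxy
    have hLT : L' ≤ T := by
      have h1 := norm_fst_le y
      have h2 := norm_snd_le y
      have h3 := le_max_left R 0
      linarith
    have hd1 : ‖x.1 - y.1‖ ≤ ‖x - y‖ := norm_fst_le (x - y)
    have hd2 : ‖x.2 - y.2‖ ≤ ‖x - y‖ := norm_snd_le (x - y)
    have hdr : |‖x.1‖ - ‖y.1‖| ≤ ‖x - y‖ := (abs_norm_sub_norm_le _ _).trans hd1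
    have hds : |‖x.2‖ - ‖y.2‖| ≤ ‖x - y‖ := (abs_norm_sub_norm_le _ _).trans hd2
    have hdL : L' - L ≤ 2 * ‖x - y‖ := by
      have h1 := (abs_le.1 hdr).1
      have h2 := (abs_le.1 hds).1
      linarith
    rcases eq_or_lt_of_le (hL0.trans hxy') with hz | hpos
    · -- both points vanish
      have hLz : L = 0 := le_antisymm (hz ▸ hxy') hL0
      have hgx : g x = 0 := by
        have := hg1 x
        rw [← hL, hLz] at this
        exact norm_le_zero_iff.1 this
      have hgy : g y = 0 := by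
        have := hg1 y
        rw [← hL', ← hz] at this
        exact norm_le_zero_iff.1 this
      simp only [hgx, hgy, smul_zero, sub_self, norm_zero]
      positivity
    · have hw' : ‖y.1‖ / L' ∈ Set.Icc u v := by
        constructor
        · rw [le_div_iff₀ hpos]; exact hy1
        · rw [div_le_iff₀ hpos]; exact hy2
      have hbd : ∀ t ∈ Set.Icc u v, |a t| ≤ M := by
        intro t ht
        have hu' : u ∈ Set.Icc u v := ⟨le_rfl, ht.1.trans ht.2⟩
        have := ha.dist_le_mul t ht u hu'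
        rw [Real.dist_eq, Real.dist_eq] at this
        have h1 : |t - u| ≤ 1 := by
          rw [abs_le]
          constructor
          · linarith [ht.1]
          · linarith [ht.2]
        have h2 : (K : ℝ) * |t - u| ≤ K := by
          have : (0 : ℝ) ≤ K := K.2
          nlinarith
        have h3 : |a t| ≤ |a t - a u| + |a u| := by
          have := abs_add_le (a t - a u) (a u)
          simpa using this
        linarith
      rcases eq_or_lt_of_le hL0 with hLz | hLpos
      · -- the first point vanishes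
        have hgx : g x = 0 := by
          have := hg1 x
          rw [← hL, ← hLz] at this
          exact norm_le_zero_iff.1 this
        rw [hgx, smul_zero, zero_sub, norm_neg, norm_smul, norm_mul, Real.norm_eq_abs,
          Real.norm_eq_abs, abs_of_nonneg (Real.rpow_nonneg hpos.le _)]
        have h1 : ‖g y‖ ≤ ‖x - y‖ := by
          have := hg2 x y
          rwa [hgx, zero_sub, norm_neg] at this
        have h2 : L' ^ κ ≤ T ^ κ := Real.rpow_le_rpow hpos.le hLT hκ.le
        have h3 := hbd _ hw'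
        calc L' ^ κ * |a (‖y.1‖ / L')| * ‖g y‖ ≤ T ^ κ * M * ‖x - y‖ := by
              gcongr
          _ ≤ C * ‖x - y‖ := by
              apply mul_le_mul_of_nonneg_right _ (norm_nonneg _)
              rw [hCdef, hC0]
              have : 0 ≤ M * (2 * ((κ + 1) * T ^ κ)) := by positivity
              have : (0 : ℝ) ≤ K * 3 * T ^ κ := by positivity
              nlinarith
      · have hw : ‖x.1‖ / L ∈ Set.Icc u v := by
          constructor
          · rw [le_div_iff₀ hLpos]; exact hx1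
          · rw [div_le_iff₀ hLpos]; exact hx2
        have hwd : |‖x.1‖ / L - ‖y.1‖ / L'| * L' ≤ 3 * ‖x - y‖ := by
          have e1 : (‖x.1‖ / L - ‖y.1‖ / L') * L'
              = ‖x.1‖ / L * (L' - L) + (‖x.1‖ - ‖y.1‖) := by
            field_simp
            ring
          have hwle : ‖x.1‖ / L ≤ 1 := hw.2.trans hv
          have hwge : 0 ≤ ‖x.1‖ / L := by positivity
          calc |‖x.1‖ / L - ‖y.1‖ / L'| * L' = |(‖x.1‖ / L - ‖y.1‖ / L') * L'| := by
                rw [abs_mul, abs_of_pos hpos]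
            _ = |‖x.1‖ / L * (L' - L) + (‖x.1‖ - ‖y.1‖)| := by rw [e1]
            _ ≤ |‖x.1‖ / L * (L' - L)| + |‖x.1‖ - ‖y.1‖| := abs_add_le _ _
            _ ≤ 2 * ‖x - y‖ + ‖x - y‖ := by
                apply add_le_add _ hdr
                rw [abs_of_nonneg (mul_nonneg hwge (by linarith))]
                calc ‖x.1‖ / L * (L' - L) ≤ 1 * (L' - L) :=
                      mul_le_mul_of_nonneg_right hwle (by linarith)
                  _ ≤ 2 * ‖x - y‖ := by linarith
            _ = 3 * ‖x - y‖ := by ring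
        have e : (L ^ κ * a (‖x.1‖ / L)) • g x - (L' ^ κ * a (‖y.1‖ / L')) • g y
            = a (‖x.1‖ / L) • ((L ^ κ) • g x - (L' ^ κ) • g y)
              + ((a (‖x.1‖ / L) - a (‖y.1‖ / L')) * L' ^ κ) • g y := by
          simp only [smul_sub, smul_smul, sub_mul, sub_smul]
          rw [mul_comm (L ^ κ), mul_comm (L' ^ κ)]
          abel
        rw [e]
        have h1 : ‖a (‖x.1‖ / L) • ((L ^ κ) • g x - (L' ^ κ) • g y)‖ ≤ M * (C0 * ‖x - y‖) := by
          rw [norm_smul, Real.norm_eq_abs]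
          exact mul_le_mul (hbd _ hw) (vec_est hκ hL0 hxy' hLT (hg1 y) (hg2 x y) hdL)
            (norm_nonneg _) hM0
        have h2 : ‖((a (‖x.1‖ / L) - a (‖y.1‖ / L')) * L' ^ κ) • g y‖
            ≤ K * 3 * T ^ κ * ‖x - y‖ := by
          rw [norm_smul, norm_mul, Real.norm_eq_abs, Real.norm_eq_abs,
            abs_of_nonneg (Real.rpow_nonneg hpos.le _)]
          have h3 := ha.dist_le_mul _ hw _ hw'
          rw [Real.dist_eq, Real.dist_eq] at h3
          have h4 : L' ^ κ ≤ T ^ κ := Real.rpow_le_rpow hpos.le hLT hκ.le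
          have hL'κ : 0 ≤ L' ^ κ := Real.rpow_nonneg hpos.le _
          calc |a (‖x.1‖ / L) - a (‖y.1‖ / L')| * L' ^ κ * ‖g y‖
              ≤ (K * |‖x.1‖ / L - ‖y.1‖ / L'|) * L' ^ κ * L' := by
                gcongr
                exact hg1 y
            _ = K * (|‖x.1‖ / L - ‖y.1‖ / L'| * L') * L' ^ κ := by ring
            _ ≤ K * (3 * ‖x - y‖) * T ^ κ := by
                gcongr
            _ = K * 3 * T ^ κ * ‖x - y‖ := by ring
        calc _ ≤ _ := norm_add_le _ _
          _ ≤ M * (C0 * ‖x - y‖) + K * 3 * T ^ κ * ‖x - y‖ := add_le_add h1 h2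
          _ = C * ‖x - y‖ := by rw [hCdef]; ring
  refine ⟨C.toNNReal, key (fun z => z.1) (fun z => ?_) (fun z z' => norm_fst_le (z - z')),
    key (fun z => z.2) (fun z => ?_) (fun z z' => norm_snd_le (z - z'))⟩
  · exact le_add_of_nonneg_right (norm_nonneg _)
  · exact le_add_of_nonneg_left (norm_nonneg _)

end Helper85.IW.M_D2abc
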