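import Mathlib

set_option autoImplicit false

/-!
No complete chain with at least two elements is impartible.

Let `C` be a complete chain.  Call a subset small if `C` does not embed into it.

* For every sequence of monotone maps `e n : C → C` there are points `x n` with
  `x n = e n (x (n + 1))` (Knaster and Tarski, on the complete lattice of sequences).
* Hence, for a well-ordering `w` of `C`, the relation `g ≺ f` on maps `C → C`, which holds if
  `w (g x) (f (e x))` for all `x` for some self-embedding `e`, is well founded.
* Let `f` be a `≺`-minimal self-embedding.  If `C` is impartible, then for every self-embedding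
  `e` the maps `f ∘ e` and `f` agree off a small set, so `e` moves only a small set of points.
* A cut argument finds a self-embedding which moves a large set of points.
-/

namespace Pool.Agent.Helper75.Imp

universe u

/-- Knaster–Tarski for a sequence of maps. -/
theorem exists_seq {C : Type u} [CompleteLattice C] (e : ℕ → C → C) (he : ∀ n, Monotone (e n)) :
    ∃ x : ℕ → C, ∀ n, x n = e n (x (n + 1)) := by
  let Φ : (ℕ → C) →o (ℕ → C) := ⟨fun x n => e n (x (n + 1)), fun x y h n => he n (h (n + 1))⟩
  refine ⟨OrderHom.lfp Φ, fun n => ?_⟩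
  have h := congrFun (OrderHom.map_lfp Φ) n
  exact h.symm

variable {C : Type u} [CompleteLinearOrder C]

/-- A set is small if the chain does not embed into it. -/
def Small (S : Set C) : Prop := ∀ e : C ↪o C, ¬ ∀ x, e x ∈ S

/-- A chain embeds into one of any two sets that cover it. -/
def Impart (C : Type u) [CompleteLinearOrder C] : Prop :=
  ∀ A B : Set C, A ∪ B = Set.univ → ¬ Small A ∨ ¬ Small B

theorem Small.mono {S T : Set C} (hT : Small T) (h : S ⊆ T) : Small S :=
  fun e he => hT e fun x => h (he x)

theorem Small.preimage {S : Set C} (hS : Small S) (e : C ↪o C) : Small (e ⁻¹' S) :=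
  fun f hf => hS (f.trans e) fun x => hf x

theorem not_small {S : Set C} (hS : ¬ Small S) : ∃ e : C ↪o C, ∀ x, e x ∈ S := by
  unfold Small at hS
  push Not at hS
  exact hS

theorem not_small_univ : ¬ Small (Set.univ : Set C) :=
  fun h => h (RelEmbedding.refl _) fun _ => trivial

theorem Small.union (hC : Impart C) {S T : Set C} (hS : Small S) (hT : Small T) :
    Small (S ∪ T) := by
  intro e he
  rcases hC (e ⁻¹' S) (e ⁻¹' T) (by
    ext x
    simpa using he x) with h | h
  · exact h (hS.preimage e)
  · exact h (hT.preimage e)

theorem Small.not_compl (hC : Impart C) {S : Set C} (hS : Small S) : ¬ Small Sᶜ := by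
  intro h
  have := hS.union hC h
  rw [Set.union_compl_self] at this
  exact not_small_univ this

/-- The relation `g ≺ f`. -/
def Prec (w : C → C → Prop) (g f : C → C) : Prop := ∃ e : C ↪o C, ∀ x, w (g x) (f (e x))

theorem prec_wf (w : C → C → Prop) (hw : IsWellOrder C w) : WellFounded (Prec w) := by
  rw [wellFounded_iff_isEmpty_descending_chain]
  refine ⟨fun ⟨f, hf⟩ => ?_⟩
  have hf' : ∀ n, ∃ e : C ↪o C, ∀ x, w (f (n + 1) x) (f n (e x)) := hf
  choose e he using hf'
  obtain ⟨x, hx⟩ := exists_seq (fun n => e n) (fun n => (e n).monotone)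
  have hd : ∀ n, w (f (n + 1) (x (n + 1))) (f n (x n)) := by
    intro n
    have := he n (x (n + 1))
    rwa [← hx n] at this
  have hwf : WellFounded w := hw.toIsWellFounded.wf
  exact (wellFounded_iff_isEmpty_descending_chain.1 hwf).false ⟨fun n => f n (x n), hd⟩

theorem small_singleton [Nontrivial C] (a : C) : Small ({a} : Set C) := by
  intro e he
  obtain ⟨x, y, hxy⟩ := exists_pair_ne C
  apply hxy
  apply e.injective
  rw [Set.mem_singleton_iff.1 (he x), Set.mem_singleton_iff.1 (he y)]

/-- In an impartible complete chain every self-embedding is the identity off a small set. -/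
theorem small_moved (hC : Impart C) (e : C ↪o C) : Small {x | e x ≠ x} := by
  have hwf : WellFounded (Prec (WellOrderingRel : C → C → Prop)) := prec_wf _ inferInstance
  let F : Set (C → C) := Set.range fun f : C ↪o C => (f : C → C)
  have hF : F.Nonempty := ⟨_, RelEmbedding.refl _, rfl⟩
  obtain ⟨f, hf⟩ := hwf.min_mem F hF
  have hf' : hwf.min F hF = f := hf.symm
  have h1 : Small {x | WellOrderingRel (f (e x)) (f x)} := by
    intro h hh
    refine hwf.not_lt_min F (x := fun x => f (e (h x))) ⟨(h.trans e).trans f, rfl⟩ ⟨h, fun x => ?_⟩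
    rw [hf']
    exact hh x
  have h2 : Small {x | WellOrderingRel (f x) (f (e x))} := by
    intro h hh
    refine hwf.not_lt_min F (x := fun x => f (h x)) ⟨h.trans f, rfl⟩ ⟨h.trans e, fun x => ?_⟩
    rw [hf']
    exact hh x
  refine (h1.union hC h2).mono ?_
  intro x hx
  rcases trichotomous_of WellOrderingRel (f (e x)) (f x) with h | h | h
  · exact Or.inl h
  · exact absurd (f.injective h) hx
  · exact Or.inr h

theorem not_impart [Nontrivial C] : ¬ Impart C := by
  intro hC
  let L : Set C := {a | Small (Set.Iio a)}
  set c := sSup L with hc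
  have hlt : ∀ b < c, Small (Set.Iic b) := by
    intro b hb
    obtain ⟨a, ha, hba⟩ := lt_sSup_iff.1 hb
    exact Small.mono ha fun x (hx : x ≤ b) => lt_of_le_of_lt hx hba
  have hgt : ∀ b > c, ¬ Small (Set.Iio b) := by
    intro b hb h
    exact absurd (le_sSup (show b ∈ L from h)) (not_le.2 hb)
  by_cases hcL : Small (Set.Iio c)
  · -- the part above `c` is large
    have h1 : Small (Set.Iic c) := by
      rw [← Set.Iio_union_right]
      exact hcL.union hC (small_singleton c)
    have h2 : ¬ Small (Set.Ioi c) := by
      rw [← Set.compl_Iic]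
      exact h1.not_compl hC
    obtain ⟨e, he⟩ := not_small h2
    have h3 : c < e c := he c
    apply hgt _ h3
    refine (h1.union hC (small_moved hC e)).mono ?_
    intro x hx
    rcases le_or_gt x c with h | h
    · exact Or.inl h
    · refine Or.inr (ne_of_gt ?_)
      exact lt_trans hx (e.lt_iff_lt.2 h)
  · obtain ⟨e, he⟩ := not_small hcL
    have h3 : e c < c := he c
    apply hcL
    refine ((hlt _ h3).union hC (small_moved hC e)).mono ?_
    intro x hx
    rcases le_or_gt x (e c) with h | h
    · exact Or.inl h
    · refine Or.inr (ne_of_lt ?_)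
      exact lt_trans (e.lt_iff_lt.2 hx) h

theorem full [Nontrivial C] :
    ∃ A B : Set C, A ∪ B = Set.univ ∧ IsEmpty (C ↪o A) ∧ IsEmpty (C ↪o B) := by
  by_contra hcon
  apply not_impart (C := C)
  intro A B hAB
  by_contra h
  push Not at h
  have hempty : ∀ S : Set C, Small S → IsEmpty (C ↪o S) := fun S hS =>
    ⟨fun e => hS (e.trans (OrderEmbedding.subtype (· ∈ S))) fun x => (e x).2⟩
  exact hcon ⟨A, B, hAB, hempty A h.1, hempty B h.2⟩

end Pool.Agent.Helper75.Imp
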