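import Mathlib

open Filter Set Cardinal

namespace Pool.Agent.Helper75.QP

/-- A family of functions that eventually dominates every function. -/
def Dominating (H : Set (ℕ → ℕ)) : Prop :=
  ∀ g : ℕ → ℕ, ∃ h ∈ H, ∀ᶠ n in atTop, g n ≤ h n

/-- The dominating number. -/
noncomputable def dd : Cardinal.{0} := sInf {κ | ∃ H : Set (ℕ → ℕ), #H = κ ∧ Dominating H}

theorem exists_dominating : ∃ H : Set (ℕ → ℕ), #H = dd ∧ Dominating H := by
  have : dd ∈ {κ | ∃ H : Set (ℕ → ℕ), #H = κ ∧ Dominating H} := by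
    apply csInf_mem
    exact ⟨_, Set.univ, rfl, fun g => ⟨g, mem_univ _, Eventually.of_forall fun _ => le_rfl⟩⟩
  exact this

theorem not_dominating_of_lt {H : Set (ℕ → ℕ)} (h : #H < dd) : ¬ Dominating H := fun hd =>
  (not_le.mpr h) (csInf_le' ⟨H, rfl, hd⟩)

theorem exists_not_le {ι : Type} (h : ι → ℕ → ℕ) (hι : #ι < dd) :
    ∃ g : ℕ → ℕ, ∀ i, ∃ᶠ n in atTop, h i n < g n := by
  have h1 : #(range h) < dd := lt_of_le_of_lt mk_range_le hι
  have h2 := not_dominating_of_lt h1
  unfold Dominating at h2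
  push Not at h2
  obtain ⟨g, hg⟩ := h2
  refine ⟨g, fun i => ?_⟩
  have := hg (h i) (mem_range_self i)
  exact this

theorem aleph0_lt_dd : ℵ₀ < dd := by
  obtain ⟨H, hH, hd⟩ := exists_dominating
  rw [← hH]
  by_contra hcon
  rw [not_lt, Cardinal.le_aleph0_iff_set_countable] at hcon
  have hne : H.Nonempty := by
    obtain ⟨h, hh, _⟩ := hd (fun _ => 0)
    exact ⟨h, hh⟩
  obtain ⟨f, hf⟩ := hcon.exists_eq_range hne
  obtain ⟨h, hh, he⟩ := hd (fun n => 1 + ∑ m ∈ Finset.range (n + 1), f m n)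
  rw [hf] at hh
  obtain ⟨m, rfl⟩ := hh
  rw [eventually_atTop] at he
  obtain ⟨N, hN⟩ := he
  have h1 := hN (max N m) (le_max_left _ _)
  have h2 : f m (max N m) ≤ ∑ i ∈ Finset.range (max N m + 1), f i (max N m) :=
    Finset.single_le_sum (f := fun i => f i (max N m)) (fun _ _ => Nat.zero_le _)
      (Finset.mem_range.2 (Nat.lt_succ_of_le (le_max_right _ _)))
  have h3 : 1 + ∑ m' ∈ Finset.range (max N m + 1), f m' (max N m) ≤ f m (max N m) := h1
  omega

/-- All finite intersections are infinite. -/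
def Centered (F : Set (Set ℕ)) : Prop :=
  ∀ s : Finset (Set ℕ), (↑s : Set (Set ℕ)) ⊆ F → (⋂₀ (↑s : Set (Set ℕ))).Infinite

theorem Centered.exists_ultrafilter {F : Set (Set ℕ)} (h : Centered F) :
    ∃ u : Ultrafilter ℕ, (u : Filter ℕ) ≤ cofinite ∧ ∀ A ∈ F, A ∈ u := by
  classical
  have hne : NeBot (generate (F ∪ {s | sᶜ.Finite})) := by
    rw [generate_neBot_iff]
    intro t ht htf
    have h1 : (⋂₀ (t ∩ F)).Infinite := by
      have h2 := h ((htf.inter_of_left F).toFinset) (by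
        intro x hx
        rw [Finset.mem_coe, Set.Finite.mem_toFinset] at hx
        exact hx.2)
      rw [Set.Finite.coe_toFinset] at h2
      exact h2
    have h3 : (⋂₀ (t \ F))ᶜ.Finite := by
      rw [compl_sInter]
      refine Set.Finite.sUnion ((htf.sdiff).image _) ?_
      rintro _ ⟨x, hx, rfl⟩
      rcases ht hx.1 with h4 | h4
      · exact absurd h4 hx.2
      · exact h4
    have h4 : (⋂₀ (t ∩ F) \ (⋂₀ (t \ F))ᶜ).Infinite := h1.sdiff h3
    obtain ⟨x, hx⟩ := h4.nonempty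
    refine ⟨x, ?_⟩
    intro a ha
    by_cases haF : a ∈ F
    · exact hx.1 a ⟨ha, haF⟩
    · have := hx.2
      rw [Set.mem_compl_iff, not_not] at this
      exact this a ⟨ha, haF⟩
  refine ⟨Ultrafilter.of (generate (F ∪ {s | sᶜ.Finite})), ?_, ?_⟩
  · intro s hs
    rw [mem_cofinite] at hs
    exact Ultrafilter.of_le _ (mem_generate_of_mem (Or.inr hs))
  · intro A hA
    exact Ultrafilter.of_le _ (mem_generate_of_mem (Or.inl hA))

theorem ultra_infinite {u : Ultrafilter ℕ} (hu : (u : Filter ℕ) ≤ cofinite) {A : Set ℕ}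
    (hA : A ∈ u) : A.Infinite := by
  intro hf
  have h1 : Aᶜ ∈ (u : Filter ℕ) := hu (by rw [mem_cofinite, compl_compl]; exact hf)
  exact (Ultrafilter.compl_mem_iff_notMem.1 h1) hA

theorem lemmaK {F : Set (Set ℕ)} (hc : Centered F) (hcard : #F < dd) (D : ℕ → Set ℕ) :
    ∃ B : Set ℕ, Centered (insert B F) ∧ ∀ m, (B ∩ D m).Finite ∨ (B \ D m).Finite := by
  classical
  obtain ⟨w, hw, hwF⟩ := hc.exists_ultrafilter
  have hcard' : #(Finset F) < dd := by
    rcases finite_or_infinite F with hfin | hinf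
    · exact lt_of_lt_of_le (Cardinal.lt_aleph0_of_finite _) aleph0_lt_dd.le
    · rw [Cardinal.mk_finset_of_infinite]
      exact hcard
  -- decided sets
  set D' : ℕ → Set ℕ := fun m => if D m ∈ w then D m else (D m)ᶜ with hD'
  have hD'w : ∀ m, D' m ∈ w := by
    intro m
    by_cases h : D m ∈ w
    · simp only [hD', h, if_true]
    · simp only [hD', h, if_false]
      exact Ultrafilter.compl_mem_iff_notMem.2 h
  set E : ℕ → Set ℕ := fun n => ⋂ m ∈ Finset.range n, D' m with hE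
  have hEw : ∀ n, E n ∈ w := by
    intro n
    have : (⋂ m ∈ Finset.range n, D' m) ∈ (w : Filter ℕ) := by
      rw [Filter.biInter_finset_mem]
      intro m _
      exact hD'w m
    exact this
  have hGw : ∀ s : Finset F, (⋂ a ∈ s, (a : Set ℕ)) ∈ w := by
    intro s
    have : (⋂ a ∈ s, (a : Set ℕ)) ∈ (w : Filter ℕ) := by
      rw [Filter.biInter_finset_mem]
      intro a _
      exact hwF a a.2
    exact this
  have hex : ∀ (s : Finset F) (n : ℕ), ∃ k, n ≤ k ∧ k ∈ E n ∧ k ∈ ⋂ a ∈ s, (a : Set ℕ) := by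
    intro s n
    have h1 : (E n ∩ ⋂ a ∈ s, (a : Set ℕ)) ∈ w := w.inter_mem (hEw n) (hGw s)
    obtain ⟨k, hk, hnk⟩ := (ultra_infinite hw h1).exists_gt n
    exact ⟨k, hnk.le, hk.1, hk.2⟩
  choose h hh1 hh2 hh3 using hex
  obtain ⟨g, hg⟩ := exists_not_le h hcard'
  refine ⟨{k | ∃ n ≤ k, k ≤ g n ∧ k ∈ E n}, ?_, ?_⟩
  · intro s hs
    -- reduce to the part of `s` in `F`
    set B : Set ℕ := {k | ∃ n ≤ k, k ≤ g n ∧ k ∈ E n} with hB
    set s' : Finset F := s.subtype (fun a => a ∈ F) with hs'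
    rw [Set.infinite_iff_exists_gt]
    intro N
    have h1 := hg s'
    rw [frequently_atTop] at h1
    obtain ⟨n, hn, hlt⟩ := h1 (N + 1)
    refine ⟨h s' n, ?_, lt_of_lt_of_le (Nat.lt_succ_self N) (hn.trans (hh1 s' n))⟩
    intro a ha
    rcases hs ha with rfl | haF
    · exact ⟨n, hh1 s' n, hlt.le, hh2 s' n⟩
    · have h2 := hh3 s' n
      rw [mem_iInter₂] at h2
      have h3 : (⟨a, haF⟩ : F) ∈ s' := by
        rw [hs', Finset.mem_subtype]
        exact ha
      exact h2 ⟨a, haF⟩ h3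
  · intro m
    have key : ∀ k, (∃ n ≤ k, k ≤ g n ∧ k ∈ E n) → k ∉ D' m →
        k ≤ (Finset.range (m + 1)).sup g := by
      rintro k ⟨n, _, hkg, hkE⟩ hkD
      have hnm : n ≤ m := by
        by_contra hcon
        push Not at hcon
        simp only [hE, mem_iInter] at hkE
        exact hkD (hkE m (Finset.mem_range.2 hcon))
      exact hkg.trans (Finset.le_sup (f := g) (Finset.mem_range.2 (Nat.lt_succ_of_le hnm)))
    by_cases h : D m ∈ w
    · right
      apply (Set.finite_Iic ((Finset.range (m + 1)).sup g)).subset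
      rintro k ⟨hk1, hk2⟩
      apply key k hk1
      simp only [hD', h, if_true]
      exact hk2
    · left
      apply (Set.finite_Iic ((Finset.range (m + 1)).sup g)).subset
      rintro k ⟨hk1, hk2⟩
      apply key k hk1
      simp only [hD', h, if_false]
      exact fun hn => hn hk2

end Pool.Agent.Helper75.QP
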