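import Mathlib
import Pool.Agent.Helper75.QPointsA

open Filter Set Cardinal

namespace Pool.Agent.Helper75.QP

theorem centered_of_initial {T : Type} [LinearOrder T] {A : Set T} {B : T → Set ℕ}
    {I : Set ℕ} (hI : I.Infinite) (h : ∀ r ∈ A, Centered (insert I (B '' Iic r))) :
    Centered (insert I (B '' A)) := by
  classical
  intro s hs
  -- choose preimages
  have h1 : ∀ a : Set ℕ, a ∈ s → a ≠ I → ∃ t ∈ A, B t = a := by
    intro a ha hne
    rcases hs ha with rfl | ⟨t, ht, rfl⟩
    · exact absurd rfl hne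
    · exact ⟨t, ht, rfl⟩
  by_cases hemp : ∃ a ∈ s, a ≠ I
  · obtain ⟨a0, ha0, ha0I⟩ := hemp
    obtain ⟨t0, ht0, hBt0⟩ := h1 a0 ha0 ha0I
    have : Nonempty T := ⟨t0⟩
    choose! f hf1 hf2 using h1
    have hne : ((s.filter (fun a => a ≠ I)).image f).Nonempty :=
      ⟨f a0, Finset.mem_image_of_mem _ (Finset.mem_filter.2 ⟨ha0, ha0I⟩)⟩
    set r := ((s.filter (fun a => a ≠ I)).image f).max' hne with hr
    have hrA : r ∈ A := by
      have := Finset.max'_mem _ hne
      rw [← hr, Finset.mem_image] at this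
      obtain ⟨a, ha, hfa⟩ := this
      rw [Finset.mem_filter] at ha
      rw [← hfa]
      exact hf1 a ha.1 ha.2
    refine h r hrA s ?_
    intro a ha
    by_cases haI : a = I
    · left; exact haI
    · right
      refine ⟨f a, ?_, hf2 a ha haI⟩
      exact Finset.le_max' _ _ (Finset.mem_image_of_mem _ (Finset.mem_filter.2 ⟨ha, haI⟩))
  · push Not at hemp
    apply hI.mono
    intro x hx a ha
    rw [hemp a ha]
    exact hx

/-- One step of the recursion. -/
noncomputable def stepB {T : Type} [LinearOrder T] (D : T → ℕ → Set ℕ) (I : Set ℕ)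
    (t : T) (rec : ∀ s, s < t → Set ℕ) : Set ℕ := by
  classical
  exact if h : ∃ B : Set ℕ, Centered (insert B (insert I {X | ∃ s, ∃ hs : s < t, X = rec s hs})) ∧
      ∀ m, (B ∩ D t m).Finite ∨ (B \ D t m).Finite then Classical.choose h else ∅

theorem recursion {T : Type} [LinearOrder T] [WellFoundedLT T] (hT : ∀ t : T, #(Iio t) < dd)
    (D : T → ℕ → Set ℕ) (I : Set ℕ) (hI : I.Infinite) :
    ∃ B : T → Set ℕ, Centered (insert I (range B)) ∧
      ∀ t m, (B t ∩ D t m).Finite ∨ (B t \ D t m).Finite := by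
  classical
  set B : T → Set ℕ := (wellFounded_lt (α := T)).fix (stepB D I) with hB
  have hBt : ∀ t, B t = stepB D I t (fun s _ => B s) := by
    intro t
    rw [hB, WellFounded.fix_eq]
  have himg : ∀ t : T, {X | ∃ s, ∃ hs : s < t, X = B s} = B '' Iio t := by
    intro t
    ext X
    constructor
    · rintro ⟨s, hs, rfl⟩
      exact ⟨s, hs, rfl⟩
    · rintro ⟨s, hs, rfl⟩
      exact ⟨s, hs, rfl⟩
  have main : ∀ t, Centered (insert I (B '' Iic t)) ∧
      ∀ m, (B t ∩ D t m).Finite ∨ (B t \ D t m).Finite := by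
    intro t
    induction t using WellFoundedLT.induction with
    | ind t ih =>
      have h1 : Centered (insert I (B '' Iio t)) :=
        centered_of_initial hI (fun r hr => (ih r hr).1)
      have h2 : #(insert I (B '' Iio t) : Set (Set ℕ)) < dd := by
        refine lt_of_le_of_lt (Cardinal.mk_insert_le) ?_
        have h3 : #(B '' Iio t) < dd := lt_of_le_of_lt mk_image_le (hT t)
        exact Cardinal.add_lt_of_lt aleph0_lt_dd.le h3
          (lt_of_lt_of_le Cardinal.one_lt_aleph0 aleph0_lt_dd.le)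
      obtain ⟨B0, hB0, hB0'⟩ := lemmaK h1 h2 (D t)
      have hex : ∃ B' : Set ℕ,
          Centered (insert B' (insert I {X | ∃ s, ∃ hs : s < t, X = B s})) ∧
          ∀ m, (B' ∩ D t m).Finite ∨ (B' \ D t m).Finite := by
        rw [himg]
        exact ⟨B0, hB0, hB0'⟩
      have hBeq : B t = Classical.choose hex := by
        rw [hBt t]
        unfold stepB
        rw [dif_pos hex]
      have hspec := Classical.choose_spec hex
      rw [← hBeq, himg] at hspec
      refine ⟨?_, hspec.2⟩
      have h5 : insert I (B '' Iic t) = insert (B t) (insert I (B '' Iio t)) := by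
        rw [← Iio_insert, image_insert_eq, Set.insert_comm]
      rw [h5]
      exact hspec.1
  refine ⟨B, ?_, fun t => (main t).2⟩
  rw [← image_univ]
  exact centered_of_initial hI (fun r _ => (main r).1)

/-- Generalised P-point construction: at most `dd` many countable families of sets can be
simultaneously decided along sets of one ultrafilter. -/
theorem lemmaU {ι : Type} (hι : #ι ≤ dd) (D : ι → ℕ → Set ℕ) (I : Set ℕ) (hI : I.Infinite) :
    ∃ u : Ultrafilter ℕ, (u : Filter ℕ) ≤ cofinite ∧ I ∈ u ∧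
      ∀ i, ∃ B ∈ u, ∀ m, (B ∩ D i m).Finite ∨ (B \ D i m).Finite := by
  classical
  have h1 : #ι ≤ #(dd.ord.ToType) := by rw [Cardinal.mk_ord_toType]; exact hι
  obtain ⟨f⟩ := h1
  obtain ⟨B, hB1, hB2⟩ := recursion (T := dd.ord.ToType)
    (fun t => by
      have h := Cardinal.mk_Iio_lt t (by rw [Cardinal.mk_ord_toType, Ordinal.type_toType])
      rwa [Cardinal.mk_ord_toType] at h)
    (Function.extend f D (fun _ _ => ∅)) I hI
  obtain ⟨u, hu1, hu2⟩ := hB1.exists_ultrafilter
  refine ⟨u, hu1, hu2 I (mem_insert _ _), fun i => ?_⟩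
  refine ⟨B (f i), hu2 _ (mem_insert_of_mem _ (mem_range_self _)), ?_⟩
  have := hB2 (f i)
  rw [f.injective.extend_apply] at this
  exact this

end Pool.Agent.Helper75.QP
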