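import Mathlib
import Pool.Agent.Helper75.QPointsB

open Filter Set Cardinal

namespace Pool.Agent.Helper75.QP

/-- Finite-to-one functions. -/
def FinToOne {α β : Type} (f : α → β) : Prop := ∀ b, (f ⁻¹' {b}).Finite

/-- endpoints of the interval partition attached to `h` -/
def endpt (h : ℕ → ℕ) : ℕ → ℕ
  | 0 => 0
  | n + 1 => max (endpt h n) ((Finset.range (endpt h n + 1)).sup h) + 1

theorem endpt_lt (h : ℕ → ℕ) (n : ℕ) : endpt h n < endpt h (n + 1) := by
  rw [endpt]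
  exact Nat.lt_succ_of_le (le_max_left _ _)

theorem endpt_strictMono (h : ℕ → ℕ) : StrictMono (endpt h) := strictMono_nat_of_lt_succ (endpt_lt h)

theorem endpt_bound (h : ℕ → ℕ) {n i : ℕ} (hi : i ≤ endpt h n) : h i < endpt h (n + 1) := by
  rw [endpt]
  refine Nat.lt_succ_of_le (le_trans ?_ (le_max_right _ _))
  exact Finset.le_sup (f := h) (Finset.mem_range.2 (Nat.lt_succ_of_le hi))

/-- index of the interval containing `i` -/
noncomputable def blk (h : ℕ → ℕ) (i : ℕ) : ℕ := Nat.findGreatest (fun n => endpt h n ≤ i) i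

theorem blk_le (h : ℕ → ℕ) (i : ℕ) : endpt h (blk h i) ≤ i := by
  unfold blk
  exact Nat.findGreatest_spec (P := fun n => endpt h n ≤ i) (Nat.zero_le i) (Nat.zero_le i)

theorem lt_blk (h : ℕ → ℕ) (i : ℕ) : i < endpt h (blk h i + 1) := by
  by_contra hcon
  push Not at hcon
  have h1 : blk h i + 1 ≤ i := ((endpt_strictMono h).le_apply).trans hcon
  have := Nat.findGreatest_is_greatest (P := fun n => endpt h n ≤ i) (n := i)
    (k := blk h i + 1) (Nat.lt_succ_self _) h1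
  exact this hcon

theorem blk_finToOne (h : ℕ → ℕ) (F : Set ℕ) (hF : F.Finite) : (blk h ⁻¹' F).Finite := by
  obtain ⟨N, hN⟩ := hF.bddAbove
  apply (Set.finite_Iic (endpt h (N + 1))).subset
  intro i hi
  have h1 : blk h i ≤ N := hN hi
  have h2 := lt_blk h i
  exact (h2.trans_le ((endpt_strictMono h).monotone (Nat.add_le_add_right h1 1))).le

theorem blk_close (h : ℕ → ℕ) {a b : ℕ} (hb : b ≤ h a) : blk h b ≤ blk h a + 1 := by
  have h1 := lt_blk h a
  have h2 : h a < endpt h (blk h a + 1 + 1) := endpt_bound h h1.le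
  have h3 := blk_le h b
  have h4 : endpt h (blk h b) < endpt h (blk h a + 1 + 1) := lt_of_le_of_lt (h3.trans hb) h2
  have h5 := (endpt_strictMono h).lt_iff_lt.1 h4
  omega

/-- There are `dd` many finite-to-one functions such that every closeness relation is contained
in the union of the kernels of two of them. -/
theorem lemmaD : ∃ (ι : Type) (q : ι → ℕ → ℕ), #ι ≤ dd ∧ (∀ i, FinToOne (q i)) ∧
    ∀ g : ℕ → ℕ, ∃ i j, ∀ a b, a ≤ g b → b ≤ g a → q i a = q i b ∨ q j a = q j b := by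
  obtain ⟨H, hH, hdom⟩ := exists_dominating
  refine ⟨(H × ℕ) × Bool, fun x i => (blk (fun n => (x.1.1 : ℕ → ℕ) n + x.1.2) i +
    (if x.2 then 1 else 0)) / 2, ?_, ?_, ?_⟩
  · have h1 : #((H × ℕ) × Bool) = #H * ℵ₀ * 2 := by simp
    rw [h1, hH]
    have h2 : dd * ℵ₀ = dd := Cardinal.mul_aleph0_eq aleph0_lt_dd.le
    rw [h2]
    have h3 : dd * 2 ≤ dd * ℵ₀ := by
      gcongr
      exact (Cardinal.natCast_lt_aleph0 (n := 2)).le
    exact h3.trans h2.le
  · rintro ⟨⟨h, c⟩, t⟩ b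
    have h1 : ((fun i => (blk (fun n => (h : ℕ → ℕ) n + c) i + (if t then 1 else 0)) / 2) ⁻¹' {b})
        ⊆ blk (fun n => (h : ℕ → ℕ) n + c) ⁻¹' (Iic (2 * b + 1)) := by
      intro i hi
      simp only [mem_preimage, mem_singleton_iff, mem_Iic] at hi ⊢
      split_ifs at hi <;> omega
    exact (blk_finToOne _ _ (finite_Iic _)).subset h1
  · intro g
    obtain ⟨h, hh, hg⟩ := hdom g
    rw [eventually_atTop] at hg
    obtain ⟨N, hN⟩ := hg
    set c := (Finset.range (N + 1)).sup g with hc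
    have hle : ∀ n, g n ≤ h n + c := by
      intro n
      by_cases hn : N ≤ n
      · exact (hN n hn).trans (Nat.le_add_right _ _)
      · have : g n ≤ c := Finset.le_sup (f := g) (Finset.mem_range.2 (by omega))
        omega
    refine ⟨((⟨h, hh⟩, c), false), ((⟨h, hh⟩, c), true), ?_⟩
    intro a b hab hba
    have h1 : blk (fun n => h n + c) a ≤ blk (fun n => h n + c) b + 1 :=
      blk_close _ (hab.trans (hle b))
    have h2 : blk (fun n => h n + c) b ≤ blk (fun n => h n + c) a + 1 :=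
      blk_close _ (hba.trans (hle a))
    simp only [Bool.false_eq_true, if_false, if_true]
    omega

/-- A sequence of distinct ultrafilters which converges along `E` in the topology given by a
separating sequence of sets is strongly discrete on `E`, up to one point. -/
theorem exists_disjoint (t : ℕ → Ultrafilter ℕ) (S : ℕ → Set ℕ)
    (hS : ∀ k l, k ≠ l → ∃ m, ¬ (S m ∈ t k ↔ S m ∈ t l)) (E : Set ℕ)
    (hE : ∀ m, (E ∩ {k | S m ∈ t k}).Finite ∨ (E \ {k | S m ∈ t k}).Finite) :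
    ∃ (k₀ : ℕ) (C : ℕ → Set ℕ), (∀ k ∈ E, k ≠ k₀ → C k ∈ t k) ∧
      ∀ k ∈ E, k ≠ k₀ → ∀ l ∈ E, l ≠ k₀ → k ≠ l → Disjoint (C k) (C l) := by
  classical
  set ε : ℕ → Prop := fun m => (E \ {k | S m ∈ t k}).Finite with hε
  have hfin : ∀ m, {k | k ∈ E ∧ ¬ (S m ∈ t k ↔ ε m)}.Finite := by
    intro m
    by_cases h : ε m
    · have h' := h
      simp only [hε] at h'
      apply h'.subset
      rintro k ⟨hk, hk2⟩
      refine ⟨hk, fun hk3 => hk2 ?_⟩
      simp only [mem_ofPred_eq] at hk3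
      exact iff_of_true hk3 h
    · have h2 : (E ∩ {k | S m ∈ t k}).Finite := (hE m).resolve_right h
      apply h2.subset
      rintro k ⟨hk, hk2⟩
      refine ⟨hk, ?_⟩
      by_contra hk3
      simp only [mem_ofPred_eq] at hk3
      exact hk2 (iff_of_false hk3 h)
  -- the exceptional index
  obtain ⟨k₀, hk₀⟩ : ∃ k₀ : ℕ, ∀ k, k ≠ k₀ → ∃ m, ¬ (S m ∈ t k ↔ ε m) := by
    by_cases hex : ∃ k, ∀ m, (S m ∈ t k ↔ ε m)
    · obtain ⟨k₀, hk₀⟩ := hex
      refine ⟨k₀, fun k hk => ?_⟩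
      obtain ⟨m, hm⟩ := hS k k₀ hk
      exact ⟨m, fun h => hm (h.trans (hk₀ m).symm)⟩
    · push Not at hex
      refine ⟨0, fun k _ => ?_⟩
      obtain ⟨m, hm⟩ := hex k
      refine ⟨m, ?_⟩
      rcases hm with ⟨h1, h2⟩ | ⟨h1, h2⟩
      · exact fun h => h2 (h.1 h1)
      · exact fun h => h1 (h.2 h2)
  have hne : ∀ k l, k ≠ l → ∃ A ∈ t k, A ∉ t l := by
    intro k l hkl
    obtain ⟨m, hm⟩ := hS k l hkl
    by_cases h1 : S m ∈ t k
    · exact ⟨S m, h1, fun h2 => hm (iff_of_true h1 h2)⟩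
    · refine ⟨(S m)ᶜ, Ultrafilter.compl_mem_iff_notMem.2 h1, ?_⟩
      rw [Ultrafilter.compl_mem_iff_notMem, not_not]
      by_contra h2
      exact hm (iff_of_false h1 h2)
  choose! A hA1 hA2 using hne
  have hEk : ∀ k, k ≠ k₀ → ∃ X ∈ t k, {l | l ∈ E ∧ X ∈ t l}.Finite := by
    intro k hk
    obtain ⟨m, hm⟩ := hk₀ k hk
    by_cases h1 : S m ∈ t k
    · refine ⟨S m, h1, ?_⟩
      apply (hfin m).subset
      rintro l ⟨hl1, hl2⟩
      refine ⟨hl1, fun h => hm ?_⟩
      exact iff_of_true h1 (h.1 hl2)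
    · refine ⟨(S m)ᶜ, Ultrafilter.compl_mem_iff_notMem.2 h1, ?_⟩
      apply (hfin m).subset
      rintro l ⟨hl1, hl2⟩
      rw [Ultrafilter.compl_mem_iff_notMem] at hl2
      refine ⟨hl1, fun h => hm ?_⟩
      exact iff_of_false h1 (fun h3 => hl2 (h.2 h3))
  choose! X hX1 hX2 using hEk
  have hEk' : ∀ k, k ≠ k₀ → ∃ Y ∈ t k, ∀ l ∈ E, l ≠ k → Y ∉ t l := by
    intro k hk
    refine ⟨X k ∩ ⋂ l ∈ (hX2 k hk).toFinset.filter (fun l => l ≠ k), A k l, ?_, ?_⟩
    · have h1 : (⋂ l ∈ (hX2 k hk).toFinset.filter (fun l => l ≠ k), A k l) ∈ (t k : Filter ℕ) := by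
        rw [Filter.biInter_finset_mem]
        intro l hl
        exact hA1 k l (fun h => (Finset.mem_filter.1 hl).2 h.symm)
      exact (t k).inter_mem (hX1 k hk) h1
    · intro l hl hlk hmem
      by_cases h1 : X k ∈ t l
      · have h2 : l ∈ (hX2 k hk).toFinset.filter (fun l => l ≠ k) := by
          rw [Finset.mem_filter, Set.Finite.mem_toFinset]
          exact ⟨⟨hl, h1⟩, hlk⟩
        have h3 : A k l ∈ t l := by
          refine mem_of_superset hmem ?_
          refine inter_subset_right.trans ?_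
          exact iInter₂_subset l h2
        exact hA2 k l (fun h => hlk h.symm) h3
      · exact h1 (mem_of_superset hmem inter_subset_left)
  choose! Y hY1 hY2 using hEk'
  refine ⟨k₀, fun k => Y k \ ⋃ l ∈ (Finset.range k).filter (fun l => l ∈ E ∧ l ≠ k₀), Y l, ?_, ?_⟩
  · intro k hk hkk
    have h1 : (⋃ l ∈ (Finset.range k).filter (fun l => l ∈ E ∧ l ≠ k₀), Y l) ∉ t k := by
      intro h2
      have h3 : ∃ l ∈ (Finset.range k).filter (fun l => l ∈ E ∧ l ≠ k₀), Y l ∈ t k := by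
        have h4 : (⋃ l ∈ (((Finset.range k).filter (fun l => l ∈ E ∧ l ≠ k₀) : Finset ℕ) : Set ℕ),
          Y l) ∈ (t k) := h2
        rw [Ultrafilter.finite_biUnion_mem_iff (Finset.finite_toSet _)] at h4
        exact h4
      obtain ⟨l, hl, hl2⟩ := h3
      rw [Finset.mem_filter, Finset.mem_range] at hl
      exact hY2 l hl.2.2 k hk (Nat.ne_of_gt hl.1) hl2
    exact (t k).inter_mem (hY1 k hkk) (Ultrafilter.compl_mem_iff_notMem.2 h1)
  · have aux : ∀ k ∈ E, k ≠ k₀ → ∀ l ∈ E, l ≠ k₀ → l < k →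
        Disjoint (Y k \ ⋃ l ∈ (Finset.range k).filter (fun l => l ∈ E ∧ l ≠ k₀), Y l)
          (Y l \ ⋃ l' ∈ (Finset.range l).filter (fun l => l ∈ E ∧ l ≠ k₀), Y l') := by
      intro k hk hkk l hl hlk hlt
      rw [Set.disjoint_left]
      rintro x ⟨_, hx2⟩ ⟨hx3, _⟩
      apply hx2
      rw [mem_iUnion₂]
      exact ⟨l, Finset.mem_filter.2 ⟨Finset.mem_range.2 hlt, hl, hlk⟩, hx3⟩
    intro k hk hkk l hl hlk hkl
    rcases lt_or_gt_of_ne hkl with h | h
    · exact (aux l hl hlk k hk hkk h).symm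
    · exact aux k hk hkk l hl hlk h

end Pool.Agent.Helper75.QP
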