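import Mathlib
import Pool.Agent.Helper75.QPointsC

open Filter Set Cardinal

namespace Pool.Agent.Helper75.QP

/-- Q-points, in terms of finite-to-one functions. -/
def QPt {α : Type} (U : Ultrafilter α) : Prop :=
  (U : Filter α) ≤ cofinite ∧ ∀ f : α → ℕ, FinToOne f → ∃ X ∈ U, InjOn f X

theorem QPt.map_equiv {α β : Type} {U : Ultrafilter α} (h : QPt U) (e : α ≃ β) :
    QPt (U.map e) := by
  refine ⟨?_, ?_⟩
  · intro s hs
    rw [mem_cofinite] at hs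
    have : e ⁻¹' s ∈ (U : Filter α) := by
      apply h.1
      rw [mem_cofinite, ← preimage_compl]
      exact hs.preimage e.injective.injOn
    exact this
  · intro f hf
    obtain ⟨X, hX, hinj⟩ := h.2 (f ∘ e) (by
      intro b
      rw [preimage_comp]
      exact (hf b).preimage e.injective.injOn)
    refine ⟨e '' X, ?_, ?_⟩
    · rw [Ultrafilter.mem_map]
      exact mem_of_superset hX (subset_preimage_image e X)
    · rintro _ ⟨x, hx, rfl⟩ _ ⟨y, hy, rfl⟩ hxy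
      rw [hinj hx hy hxy]

theorem split_mem {U : Ultrafilter ℕ} (hU : (U : Filter ℕ) ≤ cofinite) {A : Set ℕ} (hA : A ∈ U) :
    ∃ A1 ⊆ A, A1 ∈ U ∧ (A \ A1).Infinite := by
  have hinf := ultra_infinite hU hA
  have hnt : Infinite A := hinf.to_subtype
  obtain ⟨e⟩ : Nonempty (ℕ ≃ A) := by
    exact nonempty_equiv_of_countable
  set P : Set ℕ := {x | ∃ n, (e (2 * n) : ℕ) = x} with hP
  set Q : Set ℕ := {x | ∃ n, (e (2 * n + 1) : ℕ) = x} with hQ
  have hPi : P.Infinite := by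
    apply Set.infinite_range_of_injective (f := fun n : ℕ => ((e (2 * n) : A) : ℕ))
    intro a b hab
    have := e.injective (Subtype.ext hab)
    omega
  have hQi : Q.Infinite := by
    apply Set.infinite_range_of_injective (f := fun n : ℕ => ((e (2 * n + 1) : A) : ℕ))
    intro a b hab
    have := e.injective (Subtype.ext hab)
    omega
  have hdis : ∀ x, x ∈ P → x ∈ Q → False := by
    rintro x ⟨n, hn⟩ ⟨m, hm⟩
    have := e.injective (Subtype.ext (hn.trans hm.symm))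
    omega
  have hPA : P ⊆ A := by
    rintro x ⟨n, rfl⟩
    exact (e (2 * n)).2
  have hQA : Q ⊆ A := by
    rintro x ⟨n, rfl⟩
    exact (e (2 * n + 1)).2
  have hun : A ⊆ P ∪ Q := by
    intro x hx
    obtain ⟨n, hn⟩ := e.surjective ⟨x, hx⟩
    rcases Nat.even_or_odd' n with ⟨m, hm | hm⟩
    · left; exact ⟨m, by rw [← hm, hn]⟩
    · right; exact ⟨m, by rw [← hm, hn]⟩
  have h1 : P ∪ Q ∈ U := mem_of_superset hA hun
  rw [Ultrafilter.union_mem_iff] at h1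
  rcases h1 with h1 | h1
  · refine ⟨P, hPA, h1, hQi.mono ?_⟩
    exact fun x hx => ⟨hQA hx, fun h2 => hdis x h2 hx⟩
  · refine ⟨Q, hQA, h1, hPi.mono ?_⟩
    exact fun x hx => ⟨hPA hx, fun h2 => hdis x hx h2⟩

theorem iso_of_map_eq {U V : Ultrafilter ℕ} (hU : QPt U) (hV : QPt V) {q : ℕ → ℕ}
    (hq : FinToOne q) (h : U.map q = V.map q) : ∃ f : Equiv.Perm ℕ, V = U.map f := by
  classical
  obtain ⟨X, hX, hXi⟩ := hU.2 q hq
  obtain ⟨Y, hY, hYi⟩ := hV.2 q hq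
  have hYU : q '' Y ∈ U.map q := by
    rw [h, Ultrafilter.mem_map]
    exact mem_of_superset hY (subset_preimage_image q Y)
  set A : Set ℕ := X ∩ q ⁻¹' (q '' Y) with hA
  have hAU : A ∈ U := U.inter_mem hX hYU
  obtain ⟨A1, hA1A, hA1U, hA1i⟩ := split_mem hU.1 hAU
  set A2 : Set ℕ := Y ∩ q ⁻¹' (q '' A1) with hA2
  have hA2V : A2 ∈ V := by
    refine V.inter_mem hY ?_
    have h1 : q '' A1 ∈ U.map q :=
      Ultrafilter.mem_map.2 (mem_of_superset hA1U (subset_preimage_image q A1))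
    rw [h] at h1
    exact h1
  have hb1 : BijOn q A1 (q '' A1) :=
    (hXi.mono (hA1A.trans inter_subset_left)).bijOn_image
  have hb2 : BijOn q A2 (q '' A1) := by
    refine ⟨fun x hx => hx.2, hYi.mono inter_subset_left, ?_⟩
    rintro _ ⟨a, ha, rfl⟩
    obtain ⟨y, hy, hya⟩ := (hA1A ha).2
    exact ⟨y, ⟨hy, ⟨a, ha, hya.symm⟩⟩, hya⟩
  let e1 : A1 ≃ A2 := (hb1.equiv q).trans (hb2.equiv q).symm
  have he1 : ∀ a : A1, q (e1 a : ℕ) = q a := by
    intro a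
    have h1 : (hb2.equiv q) (e1 a) = (hb1.equiv q) a := by
      simp [e1]
    have h2 := congrArg Subtype.val h1
    exact h2
  have hc1 : (A1ᶜ).Infinite := hA1i.mono (fun x hx => hx.2)
  have hc2 : (A2ᶜ).Infinite := by
    have h1 : (q '' (A \ A1)).Infinite :=
      hA1i.image (hXi.mono (sdiff_subset.trans inter_subset_left))
    intro hfin
    apply h1
    apply (hfin.image q).subset
    rintro _ ⟨a, ha, rfl⟩
    obtain ⟨y, hy, hya⟩ := ha.1.2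
    refine ⟨y, ?_, hya⟩
    intro hy2
    obtain ⟨a', ha', haa'⟩ := hy2.2
    have : a' = a := hXi (hA1A ha').1 ha.1.1 (haa'.trans hya)
    rw [this] at ha'
    exact ha.2 ha'
  have hi1 : Infinite (A1ᶜ : Set ℕ) := hc1.to_subtype
  have hi2 : Infinite (A2ᶜ : Set ℕ) := hc2.to_subtype
  obtain ⟨e2⟩ : Nonempty ((A1ᶜ : Set ℕ) ≃ (A2ᶜ : Set ℕ)) := nonempty_equiv_of_countable
  let f : Equiv.Perm ℕ :=
    ((Equiv.Set.sumCompl A1).symm.trans (Equiv.sumCongr e1 e2)).trans (Equiv.Set.sumCompl A2)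
  have hf : ∀ a (ha : a ∈ A1), f a = e1 ⟨a, ha⟩ := by
    intro a ha
    simp [f, Equiv.Set.sumCompl_symm_apply_of_mem ha]
  refine ⟨f, ?_⟩
  refine (Ultrafilter.coe_le_coe.1 ?_).symm
  intro S hS
  have h1 : S ∩ A2 ∈ V := V.inter_mem hS hA2V
  have h2 : q '' (S ∩ A2) ∈ U.map q := by
    rw [h, Ultrafilter.mem_map]
    exact mem_of_superset h1 (subset_preimage_image q _)
  have h3 : A1 ∩ q ⁻¹' (q '' (S ∩ A2)) ∈ U := U.inter_mem hA1U h2
  refine Ultrafilter.mem_map.2 (mem_of_superset h3 ?_)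
  rintro a ⟨ha, y, hy, hya⟩
  rw [mem_preimage, hf a ha]
  have h4 : (e1 ⟨a, ha⟩ : ℕ) = y := by
    apply hYi (e1 ⟨a, ha⟩).2.1 hy.2.1
    rw [he1, hya]
  rw [h4]
  exact hy.1

/-- The `u`-indexed sum of the `V k`. -/
noncomputable def usum (u : Ultrafilter ℕ) (V : ℕ → Ultrafilter ℕ) : Ultrafilter (ℕ × ℕ) :=
  u.bind (fun k => (V k).map (Prod.mk k))

theorem mem_usum {u : Ultrafilter ℕ} {V : ℕ → Ultrafilter ℕ} {X : Set (ℕ × ℕ)} :
    X ∈ usum u V ↔ {k | {i | (k, i) ∈ X} ∈ V k} ∈ u := Iff.rfl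

theorem usum_nonprincipal {u : Ultrafilter ℕ} {V : ℕ → Ultrafilter ℕ}
    (hV : ∀ k, (V k : Filter ℕ) ≤ cofinite) : (usum u V : Filter (ℕ × ℕ)) ≤ cofinite := by
  intro s hs
  rw [mem_cofinite] at hs
  have : s ∈ usum u V := by
    rw [mem_usum]
    apply mem_of_superset univ_mem
    intro k _
    apply hV k
    rw [mem_cofinite]
    have h1 := hs.preimage (f := Prod.mk k) (by
      intro a _ b _ hab
      exact (Prod.mk.inj hab).2)
    exact h1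
  exact this

theorem tri_mem {u : Ultrafilter ℕ} {V : ℕ → Ultrafilter ℕ}
    (hV : ∀ k, (V k : Filter ℕ) ≤ cofinite) : {p : ℕ × ℕ | p.1 ≤ p.2} ∈ usum u V := by
  rw [mem_usum]
  apply mem_of_superset univ_mem
  intro k _
  apply hV k
  rw [mem_cofinite]
  apply (finite_Iio k).subset
  intro i hi
  simp only [mem_compl_iff, mem_ofPred_eq, not_le] at hi
  exact hi

theorem tri_finite (n : ℕ) : {p : ℕ × ℕ | p.1 ≤ p.2 ∧ p.2 ≤ n}.Finite := by
  apply ((finite_Iic n).prod (finite_Iic n)).subset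
  rintro ⟨a, b⟩ ⟨h1, h2⟩
  exact ⟨h1.trans h2, h2⟩

/-- `B` decides all the sets `{k | S m ∈ t k}`. -/
def Decides (S : ℕ → Set ℕ) (t : ℕ → Ultrafilter ℕ) (B : Set ℕ) : Prop :=
  ∀ m, (B ∩ {k | S m ∈ t k}).Finite ∨ (B \ {k | S m ∈ t k}).Finite

theorem usum_qpt {ι : Type} {q : ι → ℕ → ℕ} (hq : ∀ i, FinToOne (q i))
    (hD : ∀ g : ℕ → ℕ, ∃ i j, ∀ a b, a ≤ g b → b ≤ g a → q i a = q i b ∨ q j a = q j b)
    {V : ℕ → Ultrafilter ℕ} (hV : ∀ k, QPt (V k)) {S : ι → ℕ → Set ℕ}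
    (hS : ∀ i k l, k ≠ l → ∃ m, ¬ (S i m ∈ (V k).map (q i) ↔ S i m ∈ (V l).map (q i)))
    {u : Ultrafilter ℕ} (hu : (u : Filter ℕ) ≤ cofinite)
    (hg : ∀ i, ∃ B ∈ u, Decides (S i) (fun k => (V k).map (q i)) B) :
    QPt (usum u V) := by
  classical
  refine ⟨usum_nonprincipal fun k => (hV k).1, fun f hf => ?_⟩
  -- selectors
  have hZ : ∀ i, ∃ Z ∈ usum u V, InjOn (fun p : ℕ × ℕ => q i p.2) Z := by
    intro i
    obtain ⟨B, hB, hBd⟩ := hg i
    obtain ⟨k₀, C, hC1, hC2⟩ := exists_disjoint _ (S i) (hS i) B hBd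
    have hsel : ∀ k, ∃ A ∈ V k, InjOn (q i) A := fun k => (hV k).2 (q i) (hq i)
    choose A hA1 hA2 using hsel
    refine ⟨{p | p.1 ∈ B ∧ p.1 ≠ k₀ ∧ p.2 ∈ A p.1 ∧ q i p.2 ∈ C p.1}, ?_, ?_⟩
    · rw [mem_usum]
      have h1 : B \ {k₀} ∈ u := by
        have h2 : ({k₀}ᶜ : Set ℕ) ∈ cofinite := by
          rw [mem_cofinite, compl_compl]
          exact finite_singleton k₀
        exact u.inter_mem hB (hu h2)
      refine mem_of_superset h1 ?_
      rintro k ⟨hk1, hk2⟩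
      refine mem_of_superset ((V k).inter_mem (hA1 k) (hC1 k hk1 hk2)) ?_
      rintro x ⟨hx1, hx2⟩
      exact ⟨hk1, hk2, hx1, hx2⟩
    · rintro ⟨k, x⟩ ⟨hk1, hk2, hx1, hx2⟩ ⟨l, y⟩ ⟨hl1, hl2, hy1, hy2⟩ hxy
      simp only at hk1 hk2 hx1 hx2 hl1 hl2 hy1 hy2 hxy
      have hkl : k = l := by
        by_contra hne
        have := hC2 k hk1 hk2 l hl1 hl2 hne
        rw [Set.disjoint_left] at this
        exact this hx2 (hxy ▸ hy2)
      subst hkl
      rw [hA2 k hx1 hy1 hxy]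
  -- bounding function
  have hbd : ∀ n, ∃ b, ∀ p p' : ℕ × ℕ, p.1 ≤ p.2 → p'.1 ≤ p'.2 → f p = f p' → p'.2 ≤ n →
      p.2 ≤ b := by
    intro n
    have h1 : (⋃ p' ∈ {p : ℕ × ℕ | p.1 ≤ p.2 ∧ p.2 ≤ n}, f ⁻¹' {f p'}).Finite :=
      (tri_finite n).biUnion (fun p _ => hf _)
    obtain ⟨b, hb⟩ := (h1.image Prod.snd).bddAbove
    refine ⟨b, fun p p' _ hp' hpp hn => hb ?_⟩
    refine ⟨p, ?_, rfl⟩
    rw [mem_iUnion₂]
    exact ⟨p', ⟨hp', hn⟩, hpp⟩
  choose g hg' using hbd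
  obtain ⟨i, j, hij⟩ := hD g
  obtain ⟨Zi, hZi, hinji⟩ := hZ i
  obtain ⟨Zj, hZj, hinjj⟩ := hZ j
  refine ⟨{p : ℕ × ℕ | p.1 ≤ p.2} ∩ (Zi ∩ Zj),
    (usum u V).inter_mem (tri_mem fun k => (hV k).1) ((usum u V).inter_mem hZi hZj), ?_⟩
  rintro p ⟨hp, hpi, hpj⟩ p' ⟨hp', hpi', hpj'⟩ hpp
  have h1 : p.2 ≤ g p'.2 := hg' p'.2 p p' hp hp' hpp le_rfl
  have h2 : p'.2 ≤ g p.2 := hg' p.2 p' p hp' hp hpp.symm le_rfl
  rcases hij p.2 p'.2 h1 h2 with h3 | h3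
  · exact hinji hpi hpi' h3
  · exact hinjj hpj hpj' h3

theorem usum_not_iso {ι : Type} {q : ι → ℕ → ℕ}
    (hD : ∀ g : ℕ → ℕ, ∃ i j, ∀ a b, a ≤ g b → b ≤ g a → q i a = q i b ∨ q j a = q j b)
    {V : ℕ → Ultrafilter ℕ} (hV : ∀ k, (V k : Filter ℕ) ≤ cofinite) {S : ι → ℕ → Set ℕ}
    (hS : ∀ i k l, k ≠ l → ∃ m, ¬ (S i m ∈ (V k).map (q i) ↔ S i m ∈ (V l).map (q i)))
    {u v : Ultrafilter ℕ} (hu : (u : Filter ℕ) ≤ cofinite) (hv : (v : Filter ℕ) ≤ cofinite)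
    (hgu : ∀ i, ∃ B ∈ u, Decides (S i) (fun k => (V k).map (q i)) B)
    (hgv : ∀ i, ∃ B ∈ v, Decides (S i) (fun k => (V k).map (q i)) B)
    (huv : u ≠ v) (ρ : (ℕ × ℕ) ≃ (ℕ × ℕ)) : (usum u V).map ρ ≠ usum v V := by
  classical
  intro hρ
  set T : Set (ℕ × ℕ) := {p : ℕ × ℕ | p.1 ≤ p.2} with hT
  have hT1 : T ∈ usum u V := tri_mem hV
  have hT2 : ρ ⁻¹' T ∈ usum u V := by
    have h1 : T ∈ usum v V := tri_mem hV
    rw [← hρ] at h1
    exact h1
  have hbd : ∀ n, ∃ b, ∀ p : ℕ × ℕ, p ∈ T → ρ p ∈ T → (p.2 ≤ n → (ρ p).2 ≤ b) ∧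
      ((ρ p).2 ≤ n → p.2 ≤ b) := by
    intro n
    obtain ⟨b1, hb1⟩ := (((tri_finite n).image ρ).image Prod.snd).bddAbove
    obtain ⟨b2, hb2⟩ := (((tri_finite n).image ρ.symm).image Prod.snd).bddAbove
    refine ⟨max b1 b2, fun p hp hp' => ⟨fun hn => ?_, fun hn => ?_⟩⟩
    · exact (hb1 ⟨ρ p, ⟨p, ⟨hp, hn⟩, rfl⟩, rfl⟩).trans (le_max_left _ _)
    · exact (hb2 ⟨p, ⟨ρ p, ⟨hp', hn⟩, by simp⟩, rfl⟩).trans (le_max_right _ _)
  choose g hg using hbd
  obtain ⟨i, j, hij⟩ := hD g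
  have hcov : {p : ℕ × ℕ | q i p.2 = q i (ρ p).2} ∪ {p : ℕ × ℕ | q j p.2 = q j (ρ p).2} ∈
      usum u V := by
    refine mem_of_superset ((usum u V).inter_mem hT1 hT2) ?_
    rintro p ⟨hp1, hp2⟩
    exact hij p.2 (ρ p).2 ((hg _ p hp1 hp2).2 le_rfl) ((hg _ p hp1 hp2).1 le_rfl)
  have hex : ∃ i, {p : ℕ × ℕ | q i p.2 = q i (ρ p).2} ∈ usum u V := by
    rw [Ultrafilter.union_mem_iff] at hcov
    rcases hcov with h | h
    · exact ⟨i, h⟩
    · exact ⟨j, h⟩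
  obtain ⟨i, hi⟩ := hex
  -- equality of the projections
  have hproj : ∀ X : Set ℕ, {p : ℕ × ℕ | q i p.2 ∈ X} ∈ usum u V ↔
      {p : ℕ × ℕ | q i p.2 ∈ X} ∈ usum v V := by
    intro X
    have h1 : {p : ℕ × ℕ | q i p.2 ∈ X} ∈ usum v V ↔
        {p : ℕ × ℕ | q i (ρ p).2 ∈ X} ∈ usum u V := by
      rw [← hρ]
      exact Iff.rfl
    rw [h1]
    constructor
    · intro h
      refine mem_of_superset ((usum u V).inter_mem hi h) ?_
      rintro p ⟨hp1, hp2⟩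
      simp only [mem_ofPred_eq] at hp1 hp2 ⊢
      rw [← hp1]
      exact hp2
    · intro h
      refine mem_of_superset ((usum u V).inter_mem hi h) ?_
      rintro p ⟨hp1, hp2⟩
      simp only [mem_ofPred_eq] at hp1 hp2 ⊢
      rw [hp1]
      exact hp2
  have hproj' : ∀ X : Set ℕ, {k | X ∈ (V k).map (q i)} ∈ u ↔ {k | X ∈ (V k).map (q i)} ∈ v :=
    fun X => hproj X
  obtain ⟨B, hB, hBd⟩ := hgu i
  obtain ⟨B', hB', hBd'⟩ := hgv i
  obtain ⟨I, hI1, hI2⟩ : ∃ I : Set ℕ, I ∈ u ∧ Iᶜ ∈ v := by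
    by_contra hcon
    push Not at hcon
    apply huv
    refine (Ultrafilter.coe_le_coe.1 ?_).symm
    intro s hs
    have h1 := hcon s hs
    rw [Ultrafilter.compl_mem_iff_notMem, not_not] at h1
    exact h1
  set E : Set ℕ := (B ∩ I) ∪ (B' ∩ Iᶜ) with hE
  have hEd : Decides (S i) (fun k => (V k).map (q i)) E := by
    intro m
    by_cases hm : {k | S i m ∈ (V k).map (q i)} ∈ u
    · right
      have h1 : (B \ {k | S i m ∈ (V k).map (q i)}).Finite := by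
        rcases hBd m with h | h
        · exact absurd h (ultra_infinite hu (u.inter_mem hB hm))
        · exact h
      have h2 : (B' \ {k | S i m ∈ (V k).map (q i)}).Finite := by
        rcases hBd' m with h | h
        · exact absurd h (ultra_infinite hv (v.inter_mem hB' ((hproj' _).1 hm)))
        · exact h
      apply (h1.union h2).subset
      rintro k ⟨hk | hk, hk2⟩
      · left; exact ⟨hk.1, hk2⟩
      · right; exact ⟨hk.1, hk2⟩
    · left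
      have hm' : {k | S i m ∈ (V k).map (q i)} ∉ v := fun h => hm ((hproj' _).2 h)
      have h1 : (B ∩ {k | S i m ∈ (V k).map (q i)}).Finite := by
        rcases hBd m with h | h
        · exact h
        · have h3 : B \ {k | S i m ∈ (V k).map (q i)} ∈ u :=
            u.inter_mem hB (Ultrafilter.compl_mem_iff_notMem.2 hm)
          exact absurd h (ultra_infinite hu h3)
      have h2 : (B' ∩ {k | S i m ∈ (V k).map (q i)}).Finite := by
        rcases hBd' m with h | h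
        · exact h
        · have h3 : B' \ {k | S i m ∈ (V k).map (q i)} ∈ v :=
            v.inter_mem hB' (Ultrafilter.compl_mem_iff_notMem.2 hm')
          exact absurd h (ultra_infinite hv h3)
      apply (h1.union h2).subset
      rintro k ⟨hk | hk, hk2⟩
      · left; exact ⟨hk.1, hk2⟩
      · right; exact ⟨hk.1, hk2⟩
  obtain ⟨k₀, C, hC1, hC2⟩ := exists_disjoint _ (S i) (hS i) E hEd
  have hk₀ : ({k₀}ᶜ : Set ℕ) ∈ cofinite := by
    rw [mem_cofinite, compl_compl]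
    exact finite_singleton k₀
  have hX : {k | (⋃ l ∈ (B ∩ I) \ {k₀}, C l) ∈ (V k).map (q i)} ∈ u := by
    refine mem_of_superset (u.inter_mem (u.inter_mem hB hI1) (hu hk₀)) ?_
    rintro k ⟨hk, hkk⟩
    refine mem_of_superset (hC1 k (Or.inl hk) hkk) (preimage_mono ?_)
    exact subset_biUnion_of_mem (u := C) (show k ∈ (B ∩ I) \ {k₀} from ⟨hk, hkk⟩)
  have hX' : {k | (⋃ l ∈ (B' ∩ Iᶜ) \ {k₀}, C l) ∈ (V k).map (q i)} ∈ v := by
    refine mem_of_superset (v.inter_mem (v.inter_mem hB' hI2) (hv hk₀)) ?_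
    rintro k ⟨hk, hkk⟩
    refine mem_of_superset (hC1 k (Or.inr hk) hkk) (preimage_mono ?_)
    exact subset_biUnion_of_mem (u := C) (show k ∈ (B' ∩ Iᶜ) \ {k₀} from ⟨hk, hkk⟩)
  have hX2 := (hproj' _).1 hX
  obtain ⟨k, hk1, hk2⟩ := (ultra_infinite hv (v.inter_mem hX2 hX')).nonempty
  have h3 := ((V k).map (q i)).inter_mem hk1 hk2
  obtain ⟨x, hx1, hx2⟩ := Ultrafilter.nonempty_of_mem h3
  rw [mem_iUnion₂] at hx1 hx2
  obtain ⟨a, ⟨ha1, ha2⟩, ha3⟩ := hx1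
  obtain ⟨b, ⟨hb1, hb2⟩, hb3⟩ := hx2
  have hab : a ≠ b := by
    rintro rfl
    exact hb1.2 ha1.2
  exact (Set.disjoint_left.1 (hC2 a (Or.inl ha1) ha2 b (Or.inr hb1) hb2 hab)) ha3 hb3

/-- A separating sequence for an injective sequence of ultrafilters. -/
theorem exists_separating (t : ℕ → Ultrafilter ℕ) (ht : Function.Injective t) :
    ∃ S : ℕ → Set ℕ, ∀ k l, k ≠ l → ∃ m, ¬ (S m ∈ t k ↔ S m ∈ t l) := by
  have h1 : ∀ p : ℕ × ℕ, ∃ A : Set ℕ, p.1 ≠ p.2 → ¬ (A ∈ t p.1 ↔ A ∈ t p.2) := by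
    rintro ⟨k, l⟩
    by_cases hkl : k = l
    · exact ⟨∅, fun h => absurd hkl h⟩
    · by_contra hcon
      push Not at hcon
      apply hkl
      apply ht
      ext A
      exact (hcon A).2
  choose A hA using h1
  refine ⟨fun m => A m.unpair, fun k l hkl => ⟨Nat.pair k l, ?_⟩⟩
  have := hA (k, l) hkl
  simpa using this

end Pool.Agent.Helper75.QP
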