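import Mathlib
import Pool.Agent.Helper75.QPointsD

open Filter Set Cardinal

namespace Pool.Agent.Helper75.QP

/-- branches through the binary tree form an almost disjoint family -/
def branch (x : ℕ → Bool) : Set ℕ :=
  range (fun n : ℕ => Encodable.encode (List.ofFn (fun i : Fin n => x i)))

theorem branch_infinite (x : ℕ → Bool) : (branch x).Infinite := by
  apply Set.infinite_range_of_injective
  intro a b hab
  have h1 := Encodable.encode_injective hab
  have h2 := congrArg List.length h1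
  simpa using h2

theorem branch_inter {x y : ℕ → Bool} (hxy : x ≠ y) : (branch x ∩ branch y).Finite := by
  obtain ⟨m, hm⟩ := Function.ne_iff.1 hxy
  apply ((finite_Iic m).image
    (fun n : ℕ => Encodable.encode (List.ofFn (fun i : Fin n => x i)))).subset
  rintro _ ⟨⟨a, rfl⟩, ⟨b, hb⟩⟩
  refine ⟨a, ?_, rfl⟩
  simp only at hb
  have h1 := Encodable.encode_injective hb
  have h2 : b = a := by
    have := congrArg List.length h1
    simpa using this
  subst h2
  rw [mem_Iic]
  by_contra hcon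
  push Not at hcon
  have h3 := List.ofFn_injective h1
  have h4 := congrFun h3 ⟨m, hcon⟩
  exact hm h4.symm

theorem exists_many {V : ℕ → Ultrafilter ℕ} (hV : ∀ k, QPt (V k))
    (hne : ∀ k l, k ≠ l → ¬ ∃ f : Equiv.Perm ℕ, V l = (V k).map f) :
    ∃ F : (ℕ → Bool) → Ultrafilter (ℕ × ℕ), (∀ x, QPt (F x)) ∧
      ∀ x y, x ≠ y → ∀ ρ : (ℕ × ℕ) ≃ (ℕ × ℕ), (F x).map ρ ≠ F y := by
  classical
  obtain ⟨ι, q, hι, hq, hD⟩ := lemmaD
  have hinj : ∀ i, Function.Injective (fun k => (V k).map (q i)) := by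
    intro i k l hkl
    by_contra hkl'
    exact hne k l hkl' (iso_of_map_eq (hV k) (hV l) (hq i) hkl)
  have hS : ∀ i, ∃ S : ℕ → Set ℕ, ∀ k l, k ≠ l →
      ∃ m, ¬ (S m ∈ (V k).map (q i) ↔ S m ∈ (V l).map (q i)) := fun i =>
    exists_separating _ (hinj i)
  choose S hS using hS
  have hU : ∀ x : ℕ → Bool, ∃ u : Ultrafilter ℕ, (u : Filter ℕ) ≤ cofinite ∧ branch x ∈ u ∧
      ∀ i, ∃ B ∈ u, Decides (S i) (fun k => (V k).map (q i)) B := by
    intro x
    exact lemmaU hι (fun i m => {k | S i m ∈ (V k).map (q i)}) (branch x) (branch_infinite x)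
  choose u hu1 hu2 hu3 using hU
  refine ⟨fun x => usum (u x) V, fun x => ?_, fun x y hxy ρ => ?_⟩
  · exact usum_qpt hq hD hV hS (hu1 x) (hu3 x)
  · refine usum_not_iso hD (fun k => (hV k).1) hS (hu1 x) (hu1 y) (hu3 x) (hu3 y) ?_ ρ
    intro hu
    have h1 : branch x ∩ branch y ∈ u x := (u x).inter_mem (hu2 x) (hu ▸ hu2 y)
    exact ultra_infinite (hu1 x) h1 (branch_inter hxy)

end Pool.Agent.Helper75.QP
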